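import Pool.Agent.U26Z.DX.Main

/-!
# The bad points of `[X, 2 X]` lie in few intervals of length `X ^ θ`
-/

set_option autoImplicit false

namespace Pool.Agent.H83SI

open Finset Filter Topology MeasureTheory Pool.Agent.U26Z.DX
open scoped NNReal ENNReal

/-- the points after which the asymptotic formula fails by more than `δ` for some length `H ≥ y ^ θ` -/
def Bad (θ δ : ℝ) : Set ℝ := {y : ℝ | ∃ H : ℝ, y ^ θ ≤ H ∧ H ≤ y ∧ δ < |density y H - 1|}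

/-- the bound for the measure of the bad dilations -/
def Vol (θ μ η : ℝ) : Prop := ∀ ε a b : ℝ, 0 < ε → ε ≤ 1 / 10 → 0 < a → a ≤ b → ∀ᶠ x : ℝ in atTop, ∀ H : ℝ,
  x ^ θ / 10 ≤ H → H ≤ x ^ (0.65 : ℝ) → volume (Bd a b ε x H) ≤ ENNReal.ofReal (x ^ (-(μ + η)))

theorem cells1 {G : Set ℝ} {τ : ℝ} (hτ : 0 < τ) (I : Finset ℕ) (t : ℕ → ℝ)
    (h1 : ∀ i ∈ I, 1 + i * τ ≤ t i ∧ t i < 1 + (i + 1) * τ) (h2 : ∀ i ∈ I, Set.Icc (t i) (t i + τ) ⊆ G)
    (hI : ∀ i ∈ I, ∀ j ∈ I, i < j → i + 2 ≤ j) :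
    (I.card : ℝ≥0∞) * ENNReal.ofReal τ ≤ volume G := by
  have hd : (I : Set ℕ).PairwiseDisjoint fun i => Set.Ico (t i) (t i + τ) := by
    intro i hi j hj hij
    have key : ∀ i ∈ I, ∀ j ∈ I, i < j → Disjoint (Set.Ico (t i) (t i + τ)) (Set.Ico (t j) (t j + τ)) := by
      intro i hi j hj hij
      rw [Set.disjoint_left]
      rintro x ⟨hx1, hx2⟩ ⟨hx3, hx4⟩
      have h3 : ((i : ℝ) + 2) ≤ j := by exact_mod_cast hI i hi j hj hij
      have h4 := (h1 i hi).2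
      have h5 := (h1 j hj).1
      nlinarith
    rcases lt_or_gt_of_ne hij with h | h
    · exact key i hi j hj h
    · exact (key j hj i hi h).symm
  have h3 : volume (⋃ i ∈ I, Set.Ico (t i) (t i + τ)) = ∑ i ∈ I, volume (Set.Ico (t i) (t i + τ)) :=
    measure_biUnion_finset hd fun i _ => measurableSet_Ico
  have h4 : ∑ i ∈ I, volume (Set.Ico (t i) (t i + τ)) = (I.card : ℝ≥0∞) * ENNReal.ofReal τ := by
    simp only [Real.volume_Ico, add_sub_cancel_left, Finset.sum_const, nsmul_eq_mul]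
  rw [← h4, ← h3]
  apply measure_mono
  intro x hx
  rw [Set.mem_iUnion₂] at hx
  obtain ⟨i, hi, hx⟩ := hx
  exact h2 i hi ⟨hx.1, hx.2.le⟩

theorem cells {G : Set ℝ} {τ : ℝ} (hτ : 0 < τ) (I : Finset ℕ) (t : ℕ → ℝ)
    (h1 : ∀ i ∈ I, 1 + i * τ ≤ t i ∧ t i < 1 + (i + 1) * τ) (h2 : ∀ i ∈ I, Set.Icc (t i) (t i + τ) ⊆ G) :
    (I.card : ℝ≥0∞) * ENNReal.ofReal τ ≤ 2 * volume G := by
  have hp : ∀ p : ℕ, ((I.filter fun i => i % 2 = p).card : ℝ≥0∞) * ENNReal.ofReal τ ≤ volume G := by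
    intro p
    apply cells1 hτ _ t
    · intro i hi
      exact h1 i (mem_filter.1 hi).1
    · intro i hi
      exact h2 i (mem_filter.1 hi).1
    · intro i hi j hj hij
      have e1 := (mem_filter.1 hi).2
      have e2 := (mem_filter.1 hj).2
      omega
  have hc : I.card = (I.filter fun i => i % 2 = 0).card + (I.filter fun i => i % 2 = 1).card := by
    rw [← card_union_of_disjoint]
    · congr 1
      ext i
      simp only [mem_union, mem_filter]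
      constructor
      · intro h
        rcases Nat.mod_two_eq_zero_or_one i with h' | h'
        · exact Or.inl ⟨h, h'⟩
        · exact Or.inr ⟨h, h'⟩
      · rintro (h | h)
        · exact h.1
        · exact h.1
    · rw [disjoint_filter]
      intro i _ h
      omega
  rw [hc, two_mul]
  push_cast
  rw [add_mul]
  exact add_le_add (hp 0) (hp 1)

/-- a bad point makes all near dilations bad -/
theorem near {θ : ℝ} (hθ0 : 0.167 ≤ θ) (hθ1 : θ ≤ 1) {ε : ℝ} (hε : 0 < ε) (hε1 : ε ≤ 1 / 10) :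
    ∀ᶠ X : ℝ in atTop, ∀ y : ℝ, X ≤ y → y ≤ 2 * X → y ∈ Bad θ (10 * ε) →
      Set.Icc (y / X) (y / X + ε / 12 * X ^ (θ - 1)) ⊆
        GS 1 3 ε θ (X - ε / 12 * X ^ θ) ∪ GS 1 3 ε θ X := by
  have hst := stab hθ0 hθ1 (a := 1) (b := 3) one_pos (by norm_num) hε hε1
  obtain ⟨xs, hxs⟩ := eventually_atTop.1 hst
  obtain ⟨yl, hyl⟩ := eventually_atTop.1 (long (δ := 10 * ε) (D := 1) (by positivity) one_pos)
  filter_upwards [eventually_ge_atTop (2 * xs), eventually_ge_atTop yl, eventually_ge_atTop (1 : ℝ),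
    ev_const (2 * 2 ^ (0.59 : ℝ)) (show (0 : ℝ) < 0.41 by norm_num)] with X h1 h2 h3 h4
  intro y hy1 hy2 hbad t' ht'
  have hX : 0 < X := by linarith
  have hy0 : 0 < y := by linarith
  obtain ⟨H, hH1, hH2, hH3⟩ := hbad
  obtain ⟨t, ht⟩ : ∃ t, t = y / X := ⟨_, rfl⟩
  rw [← ht] at ht'
  obtain ⟨ht1, ht2⟩ := ht'
  have e1 : t * X = y := by rw [ht]; field_simp
  have ht3 : 1 ≤ t := by rw [ht, le_div_iff₀ hX]; linarith
  have ht4 : t ≤ 2 := by rw [ht, div_le_iff₀ hX]; exact hy2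
  obtain ⟨τ, hτ⟩ : ∃ τ, τ = ε / 12 * X ^ (θ - 1) := ⟨_, rfl⟩
  rw [← hτ] at ht2
  have hτ0 : 0 < τ := by rw [hτ]; positivity
  have hτ1 : τ ≤ 1 / 2 := by
    rw [hτ]
    have : X ^ (θ - 1) ≤ 1 := Real.rpow_le_one_of_one_le_of_nonpos h3 (by linarith)
    nlinarith [Real.rpow_pos_of_pos hX (θ - 1)]
  have eτ : τ * X = ε / 12 * X ^ θ := by
    rw [hτ, mul_assoc]
    congr 1
    rw [← Real.rpow_add_one hX.ne']
    congr 1
    ring
  have ht'0 : 0 < t' := by linarith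
  obtain ⟨x', hx'⟩ : ∃ x', x' = y / t' := ⟨_, rfl⟩
  have e2 : t' * x' = y := by rw [hx']; field_simp
  have hx'1 : x' ≤ X := by
    rw [hx', div_le_iff₀ ht'0]
    nlinarith
  have hx'2 : X - τ * X ≤ x' := by
    rw [hx', le_div_iff₀ ht'0, ← e1]
    have : 0 ≤ τ * X := by positivity
    nlinarith
  have hx'3 : X / 2 ≤ x' := by nlinarith
  have hx'0 : 0 < x' := by linarith
  have hHs : H < y ^ (0.59 : ℝ) := by
    by_contra hcon
    push Not at hcon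
    have := hyl y (by linarith) H hcon (by linarith)
    linarith
  have hHx : H ≤ x' := by
    have g1 : y ^ (0.59 : ℝ) ≤ 2 ^ (0.59 : ℝ) * X ^ (0.59 : ℝ) := by
      rw [← Real.mul_rpow (by norm_num) hX.le]
      exact Real.rpow_le_rpow hy0.le hy2 (by norm_num)
    have g2 : X = X ^ (0.41 : ℝ) * X ^ (0.59 : ℝ) := by rw [← Real.rpow_add hX]; norm_num
    have g3 : 2 * 2 ^ (0.59 : ℝ) * X ^ (0.59 : ℝ) ≤ X ^ (0.41 : ℝ) * X ^ (0.59 : ℝ) := by gcongr
    rw [← g2] at g3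
    linarith
  have hmain := hxs x' (by linarith) (X - ε / 12 * X ^ θ) X (by rw [← eτ]; exact hx'2) hx'1 (by
    have g1 : X ^ θ ≤ 2 * x' ^ θ := by
      calc X ^ θ ≤ (2 * x') ^ θ := Real.rpow_le_rpow hX.le (by linarith) (by linarith)
        _ = 2 ^ θ * x' ^ θ := Real.mul_rpow (by norm_num) hx'0.le
        _ ≤ 2 ^ (1 : ℝ) * x' ^ θ := by
            gcongr
            · norm_num
        _ = _ := by rw [Real.rpow_one]
    have g2 : ε / 12 * X ^ θ ≤ ε / 12 * (2 * x' ^ θ) := by gcongr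
    linarith) t' ⟨by linarith, by linarith⟩ H (by
      refine le_trans ?_ hH1
      exact Real.rpow_le_rpow hx'0.le (by linarith) (by linarith)) hHx (by rw [e2]; exact hH3)
  exact hmain

/-- the bad points of `[X, 2 X]` lie in few intervals of length `X ^ θ` -/
theorem cover {θ μ η : ℝ} (hθ0 : 0.167 ≤ θ) (hθ1 : θ ≤ 1) (hμ : 0 ≤ μ) (hη : 0 < η) (hv : Vol θ μ η)
    {ε : ℝ} (hε : 0 < ε) (hε1 : ε ≤ 1 / 10) :
    ∀ᶠ X : ℝ in atTop, ∃ U : Finset ℝ, (U.card : ℝ) ≤ X ^ (1 - θ - μ - η / 2) ∧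
      ∀ y : ℝ, X ≤ y → y ≤ 2 * X → y ∈ Bad θ (10 * ε) → ∃ u ∈ U, u ≤ y ∧ y ≤ u + X ^ θ := by
  classical
  have hvg := vol_GS (θ := θ) (μ := μ) hη hε (hv ε 1 3 hε hε1 one_pos (by norm_num))
  obtain ⟨xv, hxv⟩ := eventually_atTop.1 hvg
  filter_upwards [near hθ0 hθ1 hε hε1, eventually_ge_atTop (2 * xv), eventually_ge_atTop (1 : ℝ),
    ev_const (24 / ε * (2 * 2 ^ (μ + 3 / 4 * η))) (show 0 < η / 4 by positivity)] with X h1 h2 h3 h4
  have hX : 0 < X := by linarith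
  obtain ⟨τ, hτ⟩ : ∃ τ, τ = ε / 12 * X ^ (θ - 1) := ⟨_, rfl⟩
  have hτ0 : 0 < τ := by rw [hτ]; positivity
  have eτ : τ * X = ε / 12 * X ^ θ := by
    rw [hτ, mul_assoc]
    congr 1
    rw [← Real.rpow_add_one hX.ne']
    congr 1
    ring
  obtain ⟨G, hG⟩ : ∃ G, G = GS 1 3 ε θ (X - ε / 12 * X ^ θ) ∪ GS 1 3 ε θ X := ⟨_, rfl⟩
  rw [← hτ, ← hG] at h1
  have hXθ : X ^ θ ≤ X := by
    calc X ^ θ ≤ X ^ (1 : ℝ) := Real.rpow_le_rpow_of_exponent_le h3 hθ1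
      _ = X := Real.rpow_one X
  have hlo : X / 2 ≤ X - ε / 12 * X ^ θ := by nlinarith [Real.rpow_pos_of_pos hX θ]
  have hGv : volume G ≤ ENNReal.ofReal (2 * (2 ^ (μ + 3 / 4 * η) * X ^ (-(μ + 3 / 4 * η)))) := by
    have key : ∀ x : ℝ, X / 2 ≤ x → volume (GS 1 3 ε θ x) ≤ ENNReal.ofReal (2 ^ (μ + 3 / 4 * η) * X ^ (-(μ + 3 / 4 * η))) := by
      intro x hx
      refine (hxv x (by linarith)).trans (ENNReal.ofReal_le_ofReal ?_)
      calc x ^ (-(μ + 3 / 4 * η)) ≤ (X / 2) ^ (-(μ + 3 / 4 * η)) :=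
            Real.rpow_le_rpow_of_nonpos (by positivity) hx (by linarith)
        _ = _ := by
            rw [Real.div_rpow hX.le (by norm_num), Real.rpow_neg (by norm_num : (0 : ℝ) ≤ 2), div_inv_eq_mul, mul_comm]
    rw [hG]
    refine (measure_union_le _ _).trans ?_
    rw [two_mul, ENNReal.ofReal_add (by positivity) (by positivity)]
    exact add_le_add (key _ hlo) (key _ (by linarith))
  -- the bad cells
  obtain ⟨I, hI⟩ : ∃ I : Finset ℕ, I = (range (⌈1 / τ⌉₊ + 1)).filter (fun i : ℕ =>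
    ∃ t : ℝ, (1 + i * τ ≤ t ∧ t < 1 + (i + 1) * τ) ∧ Set.Icc t (t + τ) ⊆ G) := ⟨_, rfl⟩
  have hch : ∀ i : ℕ, ∃ t : ℝ, i ∈ I → (1 + i * τ ≤ t ∧ t < 1 + (i + 1) * τ) ∧ Set.Icc t (t + τ) ⊆ G := by
    intro i
    by_cases h : i ∈ I
    · rw [hI, mem_filter] at h
      obtain ⟨t, ht⟩ := h.2
      exact ⟨t, fun _ => ht⟩
    · exact ⟨0, fun h' => absurd h' h⟩
  choose t ht using hch
  have hcard := cells hτ0 I t (fun i hi => (ht i hi).1) (fun i hi => (ht i hi).2)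
  have hcard2 : (I.card : ℝ) * τ ≤ 2 * (2 * (2 ^ (μ + 3 / 4 * η) * X ^ (-(μ + 3 / 4 * η)))) := by
    have g1 := hcard.trans (mul_le_mul_right hGv 2)
    rw [show (2 : ℝ≥0∞) = ENNReal.ofReal 2 by simp, ← ENNReal.ofReal_mul (by norm_num),
      show (I.card : ℝ≥0∞) = ENNReal.ofReal (I.card : ℝ) by simp, ← ENNReal.ofReal_mul (by positivity),
      ENNReal.ofReal_le_ofReal_iff (by positivity)] at g1
    exact g1
  refine ⟨I.image (fun i : ℕ => X * (1 + i * τ)), ?_, ?_⟩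
  · have g1 : ((I.image (fun i : ℕ => X * (1 + i * τ))).card : ℝ) ≤ I.card := by exact_mod_cast card_image_le
    refine g1.trans ?_
    rw [← le_div_iff₀ hτ0] at hcard2
    refine hcard2.trans ?_
    have g2 : 2 * (2 * (2 ^ (μ + 3 / 4 * η) * X ^ (-(μ + 3 / 4 * η)))) / τ =
        (24 / ε * (2 * 2 ^ (μ + 3 / 4 * η))) * X ^ (1 - θ - (μ + 3 / 4 * η)) := by
      have f1 : X ^ (1 - θ - (μ + 3 / 4 * η)) = X ^ (-(μ + 3 / 4 * η)) / X ^ (θ - 1) := by
        rw [← Real.rpow_sub hX]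
        congr 1
        ring
      rw [f1, hτ]
      have := Real.rpow_pos_of_pos hX (θ - 1)
      field_simp
      ring
    rw [g2]
    calc (24 / ε * (2 * 2 ^ (μ + 3 / 4 * η))) * X ^ (1 - θ - (μ + 3 / 4 * η))
        ≤ X ^ (η / 4) * X ^ (1 - θ - (μ + 3 / 4 * η)) := by gcongr
      _ = X ^ (1 - θ - μ - η / 2) := by
          rw [← Real.rpow_add hX]
          congr 1
          ring
  · intro y hy1 hy2 hbad
    have hsub := h1 y hy1 hy2 hbad
    obtain ⟨s, hs⟩ : ∃ s, s = y / X := ⟨_, rfl⟩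
    rw [← hs] at hsub
    have e1 : X * s = y := by rw [hs]; field_simp
    have hs1 : 1 ≤ s := by rw [hs, le_div_iff₀ hX]; linarith
    have hs2 : s ≤ 2 := by rw [hs, div_le_iff₀ hX]; exact hy2
    obtain ⟨i, hi⟩ : ∃ i, i = ⌊(s - 1) / τ⌋₊ := ⟨_, rfl⟩
    have hs0 : 0 ≤ (s - 1) / τ := div_nonneg (by linarith) hτ0.le
    have i1 : (i : ℝ) * τ ≤ s - 1 := by
      rw [← le_div_iff₀ hτ0, hi]
      exact Nat.floor_le hs0
    have i2 : s - 1 < (i + 1) * τ := by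
      rw [← div_lt_iff₀ hτ0, hi]
      exact Nat.lt_floor_add_one _
    have hiI : i ∈ I := by
      rw [hI, mem_filter, mem_range]
      refine ⟨?_, s, ⟨by linarith, by linarith⟩, hsub⟩
      have : (i : ℝ) ≤ 1 / τ := by
        rw [le_div_iff₀ hτ0]
        linarith
      have h5 : i ≤ ⌈1 / τ⌉₊ := by
        have := this.trans (Nat.le_ceil _)
        exact_mod_cast this
      omega
    refine ⟨X * (1 + i * τ), mem_image_of_mem _ hiI, ?_, ?_⟩
    · rw [← e1]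
      exact mul_le_mul_of_nonneg_left (by linarith) hX.le
    · have g3 : ε / 12 * X ^ θ ≤ X ^ θ := by nlinarith [Real.rpow_pos_of_pos hX θ]
      rw [← e1]
      nlinarith

end Pool.Agent.H83SI
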