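import Mathlib

/-!
# Limsup sets of preimages of a set which is covered by few short intervals
-/

set_option autoImplicit false

namespace Pool.Agent.H83SI

open Finset Filter Topology MeasureTheory
open scoped NNReal ENNReal

/-- the points of `A` in `[X, 2 X]` lie in at most `X ^ ρ` intervals of length `X ^ θ` -/
def Cov (A : Set ℝ) (θ ρ : ℝ) : Prop := ∀ᶠ X : ℝ in atTop, ∃ U : Finset ℝ, (U.card : ℝ) ≤ X ^ ρ ∧
  ∀ y : ℝ, X ≤ y → y ≤ 2 * X → y ∈ A → ∃ u ∈ U, u ≤ y ∧ y ≤ u + X ^ θ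

theorem Cov.mono {A B : Set ℝ} {θ ρ : ℝ} (h : A ⊆ B) (hB : Cov B θ ρ) : Cov A θ ρ := by
  filter_upwards [hB] with X hX
  obtain ⟨U, hU, h1⟩ := hX
  exact ⟨U, hU, fun y h2 h3 h4 => h1 y h2 h3 (h h4)⟩

theorem log_sub_le {X x y : ℝ} (hX : 0 < X) (hx : X ≤ x) (hxy : x ≤ y) : Real.log y - Real.log x ≤ (y - x) / X := by
  have hx0 : 0 < x := hX.trans_le hx
  have hy0 : 0 < y := hx0.trans_le hxy
  rw [← Real.log_div hy0.ne' hx0.ne']
  have h1 := Real.log_le_sub_one_of_pos (show 0 < y / x by positivity)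
  have h2 : y / x - 1 = (y - x) / x := by field_simp
  have h3 : (y - x) / x ≤ (y - x) / X := div_le_div_of_nonneg_left (by linarith) hX hx
  linarith

theorem abs_log_sub_le {X x y D : ℝ} (hX : 0 < X) (hx : X ≤ x) (hy : X ≤ y) (h : |x - y| ≤ D) :
    |Real.log x - Real.log y| ≤ D / X := by
  have hD : ∀ z : ℝ, z ≤ D → z / X ≤ D / X := fun z hz => div_le_div_of_nonneg_right hz hX.le
  rw [abs_le] at h
  rw [abs_le]
  rcases le_total x y with hxy | hxy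
  · have h1 := log_sub_le hX hx hxy
    have h2 := hD (y - x) (by linarith)
    have h3 := Real.log_le_log (hX.trans_le hx) hxy
    exact ⟨by linarith, by linarith [div_nonneg (show 0 ≤ D by linarith [h.1, h.2]) hX.le]⟩
  · have h1 := log_sub_le hX hy hxy
    have h2 := hD (x - y) (by linarith)
    have h3 := Real.log_le_log (hX.trans_le hy) hxy
    exact ⟨by linarith [div_nonneg (show 0 ≤ D by linarith [h.1, h.2]) hX.le], by linarith⟩

/-- one function: the preimage is covered by sets with small diameters -/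
theorem cov_one {A : Set ℝ} {θ ρ : ℝ} (hA : Cov A θ ρ) {s : ℝ} (hs : 0 < s) (hγ : ρ - (1 - θ) * s < 0) (hθ : θ ≤ 1)
    {c₀ : ℝ} (hc₀ : 0 < c₀) :
    ∃ C A₀ : ℝ, 0 < C ∧ 1 ≤ A₀ ∧ ∀ (S : Set ℝ) (f : ℝ → ℝ) (a : ℝ), A₀ ≤ a → (∀ t ∈ S, a ≤ f t) →
      (∀ t ∈ S, ∀ t' ∈ S, c₀ * |t - t'| ≤ |Real.log (f t) - Real.log (f t')|) →
      ∃ V : ℕ × ℕ → Set ℝ, {t : ℝ | t ∈ S ∧ f t ∈ A} ⊆ ⋃ i, V i ∧
        (∀ i, Metric.ediam (V i) ≤ ENNReal.ofReal ((a / 2) ^ (θ - 1) / c₀)) ∧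
        ∑' i, Metric.ediam (V i) ^ s ≤ ENNReal.ofReal (C * a ^ (ρ - (1 - θ) * s)) := by
  classical
  obtain ⟨X₀, hX₀⟩ := eventually_atTop.1 hA
  obtain ⟨γ, hγ'⟩ : ∃ γ, γ = ρ - (1 - θ) * s := ⟨_, rfl⟩
  rw [← hγ'] at hγ ⊢
  obtain ⟨q, hq⟩ : ∃ q, q = (2 : ℝ) ^ γ := ⟨_, rfl⟩
  have hq0 : 0 < q := by rw [hq]; positivity
  have hq1 : q < 1 := by rw [hq]; exact Real.rpow_lt_one_of_one_lt_of_neg (by norm_num) hγ
  obtain ⟨C, hC⟩ : ∃ C, C = c₀ ^ (-s) * (1 - q)⁻¹ * 2 ^ (-γ) := ⟨_, rfl⟩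
  have h1q : 0 < 1 - q := by linarith
  refine ⟨C, max (2 * X₀) 2, by rw [hC]; positivity, by linarith [le_max_right (2 * X₀) 2], ?_⟩
  intro S f a ha hf hL
  have ha1 : 2 ≤ a := (le_max_right _ _).trans ha
  have ha2 : 2 * X₀ ≤ a := (le_max_left _ _).trans ha
  have ha0 : 0 < a := by linarith
  obtain ⟨J, hJ1, hJ2⟩ := exists_nat_pow_near (show 1 ≤ a by linarith) (show (1 : ℝ) < 2 by norm_num)
  have h2p : ∀ j : ℕ, (0 : ℝ) < 2 ^ j := fun j => by positivity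
  have hJX : ∀ j : ℕ, X₀ ≤ 2 ^ (J + j) := by
    intro j
    have h3 : (2 : ℝ) ^ (J + 1) = 2 * 2 ^ J := by rw [pow_succ]; ring
    have h4 : (2 : ℝ) ^ J ≤ 2 ^ (J + j) := pow_le_pow_right₀ (by norm_num) (by omega)
    linarith
  have hU : ∀ j : ℕ, ∃ U : Finset ℝ, (U.card : ℝ) ≤ ((2 : ℝ) ^ (J + j)) ^ ρ ∧
      ∀ y : ℝ, (2 : ℝ) ^ (J + j) ≤ y → y ≤ 2 * 2 ^ (J + j) → y ∈ A → ∃ u ∈ U, u ≤ y ∧ y ≤ u + ((2 : ℝ) ^ (J + j)) ^ θ :=
    fun j => hX₀ _ (hJX j)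
  choose U hU1 hU2 using hU
  obtain ⟨d, hd⟩ : ∃ d : ℕ → ℝ, d = fun j => ((2 : ℝ) ^ (J + j)) ^ (θ - 1) / c₀ := ⟨_, rfl⟩
  have hd0 : ∀ j, 0 < d j := fun j => by rw [hd]; positivity
  obtain ⟨V, hV⟩ : ∃ V : ℕ × ℕ → Set ℝ, V = fun p => {t : ℝ | p.2 < (U p.1).card ∧ t ∈ S ∧ (2 : ℝ) ^ (J + p.1) ≤ f t ∧
      ((U p.1).toList.getD p.2 0) ≤ f t ∧ f t ≤ (U p.1).toList.getD p.2 0 + ((2 : ℝ) ^ (J + p.1)) ^ θ} := ⟨_, rfl⟩
  have hdiam : ∀ p : ℕ × ℕ, Metric.ediam (V p) ≤ ENNReal.ofReal (d p.1) := by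
    intro p
    apply Metric.ediam_le
    intro t ht t' ht'
    rw [hV] at ht ht'
    obtain ⟨-, g1, g2, g3, g4⟩ := ht
    obtain ⟨-, g1', g2', g3', g4'⟩ := ht'
    rw [edist_dist, Real.dist_eq]
    apply ENNReal.ofReal_le_ofReal
    have h5 : |f t - f t'| ≤ ((2 : ℝ) ^ (J + p.1)) ^ θ := by
      rw [abs_le]
      exact ⟨by linarith, by linarith⟩
    have h6 := abs_log_sub_le (h2p _) g2 g2' h5
    have h7 := hL t g1 t' g1'
    rw [hd]
    simp only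
    rw [le_div_iff₀ hc₀, Real.rpow_sub_one (h2p _).ne']
    linarith
  have hdle : ∀ j, d j ≤ (a / 2) ^ (θ - 1) / c₀ := by
    intro j
    rw [hd]
    simp only
    apply div_le_div_of_nonneg_right _ hc₀.le
    apply Real.rpow_le_rpow_of_nonpos (by positivity) _ (by linarith)
    have h3 : (2 : ℝ) ^ (J + 1) = 2 * 2 ^ J := by rw [pow_succ]; ring
    have h4 : (2 : ℝ) ^ J ≤ 2 ^ (J + j) := pow_le_pow_right₀ (by norm_num) (by omega)
    linarith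
  refine ⟨V, ?_, fun p => (hdiam p).trans (ENNReal.ofReal_le_ofReal (hdle p.1)), ?_⟩
  · rintro t ⟨ht, hft⟩
    have h1 := hf t ht
    obtain ⟨j, hj1, hj2⟩ := exists_nat_pow_near (show 1 ≤ f t by linarith) (show (1 : ℝ) < 2 by norm_num)
    have hJj : J ≤ j := by
      by_contra hcon
      push Not at hcon
      have : (2 : ℝ) ^ (j + 1) ≤ 2 ^ J := pow_le_pow_right₀ (by norm_num) hcon
      linarith
    obtain ⟨i, rfl⟩ := Nat.exists_eq_add_of_le hJj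
    obtain ⟨u, hu, hu1, hu2⟩ := hU2 i (f t) hj1 (by
      rw [pow_succ] at hj2
      linarith) hft
    have hu' : u ∈ (U i).toList := mem_toList.2 hu
    obtain ⟨m, hm, hmu⟩ := List.mem_iff_getElem.1 hu'
    rw [Set.mem_iUnion]
    refine ⟨(i, m), ?_⟩
    rw [hV]
    simp only [Set.mem_ofPred_eq]
    have hgd : (U i).toList.getD m 0 = u := by
      rw [List.getD_eq_getElem _ _ hm, hmu]
    rw [hgd]
    refine ⟨?_, ht, hj1, hu1, hu2⟩
    rwa [length_toList] at hm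
  · have hterm : ∀ p : ℕ × ℕ, Metric.ediam (V p) ^ s ≤ if p.2 < (U p.1).card then ENNReal.ofReal (d p.1 ^ s) else 0 := by
      intro p
      split_ifs with h
      · rw [← ENNReal.ofReal_rpow_of_pos (hd0 _)]
        exact ENNReal.rpow_le_rpow (hdiam p) hs.le
      · have : V p = ∅ := by
          rw [hV]
          ext t
          simp [h]
        rw [this, Metric.ediam_empty, ENNReal.zero_rpow_of_pos hs]
    refine (ENNReal.tsum_le_tsum hterm).trans ?_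
    rw [ENNReal.tsum_prod']
    have hin : ∀ j : ℕ, ∑' i : ℕ, (if i < (U j).card then ENNReal.ofReal (d j ^ s) else 0) ≤
        ENNReal.ofReal (c₀ ^ (-s) * ((2 : ℝ) ^ J) ^ γ * q ^ j) := by
      intro j
      rw [tsum_eq_sum (s := range (U j).card) (fun i hi => by rw [mem_range] at hi; exact if_neg hi)]
      rw [sum_congr rfl (g := fun _ => ENNReal.ofReal (d j ^ s)) (fun i hi => if_pos (mem_range.1 hi)), sum_const,
        card_range, ← ENNReal.ofReal_nsmul]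
      apply ENNReal.ofReal_le_ofReal
      rw [nsmul_eq_mul]
      calc ((U j).card : ℝ) * d j ^ s ≤ ((2 : ℝ) ^ (J + j)) ^ ρ * d j ^ s := by
            gcongr
            · exact (Real.rpow_pos_of_pos (hd0 j) s).le
            · exact hU1 j
        _ = c₀ ^ (-s) * ((2 : ℝ) ^ J) ^ γ * q ^ j := by
            rw [hd, hq]
            simp only
            rw [Real.div_rpow (by positivity) hc₀.le, ← Real.rpow_mul (h2p _).le, Real.rpow_neg hc₀.le]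
            have e1 : ((2 : ℝ) ^ (J + j)) ^ ρ * ((2 : ℝ) ^ (J + j)) ^ ((θ - 1) * s) = ((2 : ℝ) ^ J) ^ γ * ((2 : ℝ) ^ γ) ^ j := by
              rw [← Real.rpow_add (h2p _), ← Real.rpow_natCast 2 J, ← Real.rpow_natCast 2 (J + j),
                ← Real.rpow_natCast ((2 : ℝ) ^ γ) j, ← Real.rpow_mul (by norm_num), ← Real.rpow_mul (by norm_num),
                ← Real.rpow_mul (by norm_num), ← Real.rpow_add (by norm_num), hγ']
              push_cast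
              congr 1
              ring
            have hcs : c₀ ^ s ≠ 0 := (Real.rpow_pos_of_pos hc₀ s).ne'
            field_simp
            rw [e1]
    refine (ENNReal.tsum_le_tsum hin).trans ?_
    rw [← ENNReal.ofReal_tsum_of_nonneg (fun j => by positivity)
      ((summable_geometric_of_lt_one hq0.le hq1).mul_left _), tsum_mul_left, tsum_geometric_of_lt_one hq0.le hq1]
    apply ENNReal.ofReal_le_ofReal
    rw [hC]
    have h8 : ((2 : ℝ) ^ J) ^ γ ≤ 2 ^ (-γ) * a ^ γ := by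
      have h9 : a / 2 ≤ (2 : ℝ) ^ J := by
        rw [pow_succ] at hJ2
        linarith
      calc ((2 : ℝ) ^ J) ^ γ ≤ (a / 2) ^ γ := Real.rpow_le_rpow_of_nonpos (by positivity) h9 hγ.le
        _ = 2 ^ (-γ) * a ^ γ := by
            rw [Real.div_rpow ha0.le (by norm_num), Real.rpow_neg (by norm_num), div_eq_mul_inv, mul_comm]
    have h10 : 0 ≤ c₀ ^ (-s) := (Real.rpow_pos_of_pos hc₀ _).le
    have h11 : 0 ≤ (1 - q)⁻¹ := by positivity
    calc c₀ ^ (-s) * ((2 : ℝ) ^ J) ^ γ * (1 - q)⁻¹ ≤ c₀ ^ (-s) * (2 ^ (-γ) * a ^ γ) * (1 - q)⁻¹ := by gcongr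
      _ = c₀ ^ (-s) * (1 - q)⁻¹ * 2 ^ (-γ) * a ^ γ := by ring

/-- the limsup set of the preimages has Hausdorff measure `0` -/
theorem haus_zero {A : Set ℝ} {θ ρ : ℝ} (hA : Cov A θ ρ) {s κ : ℝ} (hs : 0 < s) (hκ : 0 < κ)
    (hγ : κ ≤ (1 - θ) * s - ρ) (hθ : θ < 1) (S : Set ℝ) (f : ℕ → ℝ → ℝ) (a : ℕ → ℝ) (ha : ∀ k, 0 < a k)
    (hf : ∀ k, ∀ t ∈ S, a k ≤ f k t) (hsum : Summable fun k => a k ^ (-κ)) {c₀ : ℝ} (hc₀ : 0 < c₀)
    (hL : ∀ᶠ k : ℕ in atTop, ∀ t ∈ S, ∀ t' ∈ S, c₀ * |t - t'| ≤ |Real.log (f k t) - Real.log (f k t')|) :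
    Measure.hausdorffMeasure s {t : ℝ | t ∈ S ∧ ∃ᶠ k : ℕ in atTop, f k t ∈ A} = 0 := by
  obtain ⟨C, A₀, hC, hA₀, hone⟩ := cov_one hA hs (by linarith) hθ.le hc₀
  -- `a k` tends to infinity
  have hat : Tendsto a atTop atTop := by
    have h1 := hsum.tendsto_atTop_zero
    have h2 : Tendsto (fun k => (a k ^ (-κ)) ^ (-(1 / κ))) atTop atTop := by
      apply (tendsto_rpow_neg_nhdsGT_zero (show -(1 / κ) < 0 by
        rw [neg_lt_zero]; positivity)).comp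
      rw [tendsto_nhdsWithin_iff]
      exact ⟨h1, Eventually.of_forall fun k => Real.rpow_pos_of_pos (ha k) _⟩
    refine h2.congr fun k => ?_
    rw [← Real.rpow_mul (ha k).le]
    have : -κ * -(1 / κ) = 1 := by field_simp
    rw [this, Real.rpow_one]
  obtain ⟨k₁, hk₁⟩ := eventually_atTop.1 hL
  obtain ⟨k₂, hk₂⟩ := eventually_atTop.1 (hat.eventually_ge_atTop A₀)
  obtain ⟨k₀, hk₀⟩ : ∃ k₀, k₀ = max k₁ k₂ := ⟨_, rfl⟩
  have hV : ∀ k : ℕ, ∃ V : ℕ × ℕ → Set ℝ, k₀ ≤ k → ({t : ℝ | t ∈ S ∧ f k t ∈ A} ⊆ ⋃ i, V i ∧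
        (∀ i, Metric.ediam (V i) ≤ ENNReal.ofReal ((a k / 2) ^ (θ - 1) / c₀)) ∧
        ∑' i, Metric.ediam (V i) ^ s ≤ ENNReal.ofReal (C * a k ^ (ρ - (1 - θ) * s))) := by
    intro k
    by_cases h : k₀ ≤ k
    · obtain ⟨V, hV⟩ := hone S (f k) (a k) (hk₂ k ((le_max_right k₁ k₂).trans (hk₀ ▸ h))) (hf k)
        (hk₁ k ((le_max_left k₁ k₂).trans (hk₀ ▸ h)))
      exact ⟨V, fun _ => hV⟩
    · exact ⟨fun _ => ∅, fun h' => absurd h' h⟩
  choose V hV using hV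
  obtain ⟨r, hr⟩ : ∃ r : ℕ → ℝ≥0∞, r = fun K => ⨆ k : ℕ, ENNReal.ofReal ((a (K + k) / 2) ^ (θ - 1) / c₀) := ⟨_, rfl⟩
  have hrt : Tendsto r atTop (𝓝 0) := by
    rw [ENNReal.tendsto_nhds_zero]
    intro ε hε
    have h1 : Tendsto (fun k => ENNReal.ofReal ((a k / 2) ^ (θ - 1) / c₀)) atTop (𝓝 0) := by
      have h2 : Tendsto (fun k => (a k / 2) ^ (θ - 1) / c₀) atTop (𝓝 0) := by
        have h3 : Tendsto (fun k => (a k / 2) ^ (-(1 - θ))) atTop (𝓝 0) :=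
          (tendsto_rpow_neg_atTop (by linarith)).comp (hat.atTop_div_const (by norm_num))
        have h4 := h3.div_const c₀
        rw [zero_div] at h4
        refine h4.congr fun k => ?_
        rw [neg_sub]
      have h5 := ENNReal.tendsto_ofReal h2
      rwa [ENNReal.ofReal_zero] at h5
    obtain ⟨K₁, hK₁⟩ := eventually_atTop.1 ((ENNReal.tendsto_nhds_zero.1 h1) ε hε)
    filter_upwards [eventually_ge_atTop K₁] with K hK
    rw [hr]
    exact iSup_le fun k => hK₁ (K + k) (by omega)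
  have hmain := Measure.hausdorffMeasure_le_liminf_tsum (ι := fun _ : ℕ => ℕ × (ℕ × ℕ)) s
    {t : ℝ | t ∈ S ∧ ∃ᶠ k : ℕ in atTop, f k t ∈ A} (l := atTop) r hrt
    (fun K p => V (K + p.1) p.2) (by
      filter_upwards [eventually_ge_atTop k₀] with K hK
      intro p
      refine ((hV (K + p.1) (by omega)).2.1 p.2).trans ?_
      rw [hr]
      exact le_iSup (fun k : ℕ => ENNReal.ofReal ((a (K + k) / 2) ^ (θ - 1) / c₀)) p.1) (by
      filter_upwards [eventually_ge_atTop k₀] with K hK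
      rintro t ⟨ht, hfr⟩
      obtain ⟨k, hk1, hk2⟩ := (frequently_atTop.1 hfr) K
      obtain ⟨m, rfl⟩ := Nat.exists_eq_add_of_le hk1
      have h1 := (hV (K + m) (by omega)).1 (show t ∈ {t : ℝ | t ∈ S ∧ f (K + m) t ∈ A} from ⟨ht, hk2⟩)
      rw [Set.mem_iUnion] at h1 ⊢
      obtain ⟨i, hi⟩ := h1
      exact ⟨(m, i), hi⟩)
  rw [← nonpos_iff_eq_zero]
  refine hmain.trans ?_
  have hb : Summable fun k => C * a k ^ (-κ) := hsum.mul_left C
  have htail : Tendsto (fun K : ℕ => ∑' k : ℕ, ENNReal.ofReal (C * a (K + k) ^ (-κ))) atTop (𝓝 0) := by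
    have h1 : ∑' k : ℕ, ENNReal.ofReal (C * a k ^ (-κ)) ≠ ∞ := hb.tsum_ofReal_ne_top
    have h2 := ENNReal.tendsto_sum_nat_add (fun k => ENNReal.ofReal (C * a k ^ (-κ))) h1
    refine h2.congr fun K => ?_
    congr 1
    ext k
    rw [add_comm]
  have hle : ∀ᶠ K : ℕ in atTop, ∑' p : ℕ × (ℕ × ℕ), Metric.ediam (V (K + p.1) p.2) ^ s ≤
      ∑' k : ℕ, ENNReal.ofReal (C * a (K + k) ^ (-κ)) := by
    filter_upwards [eventually_ge_atTop k₀] with K hK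
    rw [ENNReal.tsum_prod']
    refine ENNReal.tsum_le_tsum fun k => ?_
    refine (hV (K + k) (by omega)).2.2.trans (ENNReal.ofReal_le_ofReal ?_)
    have h1 : 1 ≤ a (K + k) := hA₀.trans (hk₂ (K + k) (by
      have := (le_max_right k₁ k₂)
      omega))
    have h2 : a (K + k) ^ (ρ - (1 - θ) * s) ≤ a (K + k) ^ (-κ) := Real.rpow_le_rpow_of_exponent_le h1 (by linarith)
    exact mul_le_mul_of_nonneg_left h2 hC.le
  have := liminf_le_liminf hle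
  rw [htail.liminf_eq] at this
  exact this

/-- the dimension of the limsup set -/
theorem dim_le {A : Set ℝ} {θ ρ : ℝ} (hA : Cov A θ ρ) {s κ : ℝ} (hs : 0 < s) (hκ : 0 < κ)
    (hγ : κ ≤ (1 - θ) * s - ρ) (hθ : θ < 1) (S : Set ℝ) (f : ℕ → ℝ → ℝ) (a : ℕ → ℝ) (ha : ∀ k, 0 < a k)
    (hf : ∀ k, ∀ t ∈ S, a k ≤ f k t) (hsum : Summable fun k => a k ^ (-κ)) {c₀ : ℝ} (hc₀ : 0 < c₀)
    (hL : ∀ᶠ k : ℕ in atTop, ∀ t ∈ S, ∀ t' ∈ S, c₀ * |t - t'| ≤ |Real.log (f k t) - Real.log (f k t')|) :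
    dimH {t : ℝ | t ∈ S ∧ ∃ᶠ k : ℕ in atTop, f k t ∈ A} ≤ ENNReal.ofReal s := by
  have h := haus_zero hA hs hκ hγ hθ S f a ha hf hsum hc₀ hL
  have e : ENNReal.ofReal s = ((Real.toNNReal s : ℝ≥0) : ℝ≥0∞) := rfl
  rw [e]
  apply dimH_le_of_hausdorffMeasure_ne_top
  rw [Real.coe_toNNReal s hs.le, h]
  exact ENNReal.zero_ne_top

end Pool.Agent.H83SI
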