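import Pool.Agent.H83SI.Pow

/-!
# The powers `n ^ c` for almost every `c`
-/

set_option autoImplicit false

namespace Pool.Agent.H83SI

open Finset Filter Topology MeasureTheory
open scoped NNReal ENNReal

theorem pow_lip {n : ℕ} (hn : 2 ≤ n) (t t' : ℝ) :
    Real.log 2 * |t - t'| ≤ |Real.log ((n : ℝ) ^ t) - Real.log ((n : ℝ) ^ t')| := by
  have hn2 : (2 : ℝ) ≤ n := by exact_mod_cast hn
  have hn0 : (0 : ℝ) < n := by linarith
  rw [Real.log_rpow hn0, Real.log_rpow hn0, ← sub_mul, abs_mul, mul_comm]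
  have h1 : Real.log 2 ≤ |Real.log n| := (Real.log_le_log (by norm_num) hn2).trans (le_abs_self _)
  gcongr

/-- the measure of the exponents for one `n` -/
theorem vol_pow {A : Set ℝ} {θ ρ : ℝ} (hA : Cov A θ ρ) (hγ : ρ - (1 - θ) < 0) (hθ : θ ≤ 1) {c₁ c₂ : ℝ} (hc : 1 ≤ c₁) :
    ∃ C : ℝ, 0 < C ∧ ∀ᶠ n : ℕ in atTop, volume {t : ℝ | t ∈ Set.Icc c₁ c₂ ∧ (n : ℝ) ^ t ∈ A} ≤
      ENNReal.ofReal (C * (n : ℝ) ^ (c₁ * (ρ - (1 - θ)))) := by
  obtain ⟨C, A₀, hC, hA₀, hone⟩ := cov_one hA (s := 1) one_pos (by linarith) hθ (c₀ := Real.log 2)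
    (Real.log_pos (by norm_num))
  refine ⟨C, hC, ?_⟩
  have h1 := tendsto_natCast_atTop_atTop (R := ℝ) |>.eventually (ev_rp A₀ (show 0 < c₁ by linarith))
  filter_upwards [h1, eventually_ge_atTop 2] with n hn hn2
  have hn2' : (2 : ℝ) ≤ n := by exact_mod_cast hn2
  have hn0 : (0 : ℝ) < n := by linarith
  obtain ⟨V, hV1, -, hV3⟩ := hone (Set.Icc c₁ c₂) (fun t => (n : ℝ) ^ t) ((n : ℝ) ^ c₁) hn
    (fun t ht => Real.rpow_le_rpow_of_exponent_le (by linarith) ht.1) (fun t _ t' _ => pow_lip hn2 t t')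
  refine (measure_mono hV1).trans ((measure_iUnion_le _).trans ?_)
  have h2 : ∑' i, volume (V i) ≤ ∑' i, Metric.ediam (V i) ^ (1 : ℝ) := by
    refine ENNReal.tsum_le_tsum fun i => ?_
    rw [ENNReal.rpow_one]
    exact Real.volume_le_diam _
  refine h2.trans (hV3.trans (le_of_eq ?_))
  rw [mul_one, ← Real.rpow_mul hn0.le]

/-- the number of the `n ∈ (2 ^ m, 2 ^ (m + 1)]` with `n ^ t ∈ A` -/
theorem gen_block {A : Set ℝ} {θ ρ : ℝ} (hA : Cov A θ ρ) (hγ : ρ - (1 - θ) < 0) (hθ : θ ≤ 1) {c₁ c₂ e : ℝ} (hc : 1 ≤ c₁)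
    (he : 1 + c₁ * (ρ - (1 - θ)) < e) :
    ∀ᵐ t : ℝ, t ∈ Set.Icc c₁ c₂ → ∀ᶠ m : ℕ in atTop,
      ({n : ℕ | 2 ^ m < n ∧ n ≤ 2 ^ (m + 1) ∧ (n : ℝ) ^ t ∈ A}.ncard : ℝ) ≤ ((2 : ℝ) ^ m) ^ e := by
  classical
  obtain ⟨C, hC, hvol⟩ := vol_pow (c₂ := c₂) hA hγ hθ hc
  obtain ⟨n₀, hn₀⟩ := eventually_atTop.1 hvol
  obtain ⟨γ, hγ'⟩ : ∃ γ, γ = c₁ * (ρ - (1 - θ)) := ⟨_, rfl⟩
  rw [← hγ'] at he hn₀
  have hγ0 : γ ≤ 0 := by rw [hγ']; exact mul_nonpos_of_nonneg_of_nonpos (by linarith) hγ.le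
  obtain ⟨F, hF⟩ : ∃ F : ℕ → Set ℝ, F = fun n : ℕ => toMeasurable volume {t : ℝ | t ∈ Set.Icc c₁ c₂ ∧ (n : ℝ) ^ t ∈ A} := ⟨_, rfl⟩
  have hFm : ∀ n, MeasurableSet (F n) := fun n => by rw [hF]; exact measurableSet_toMeasurable _ _
  have hFs : ∀ n : ℕ, {t : ℝ | t ∈ Set.Icc c₁ c₂ ∧ (n : ℝ) ^ t ∈ A} ⊆ F n := fun n => by rw [hF]; exact subset_toMeasurable _ _
  have hFv : ∀ n, n₀ ≤ n → volume (F n) ≤ ENNReal.ofReal (C * (n : ℝ) ^ γ) := by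
    intro n hn
    rw [hF]
    simp only
    rw [measure_toMeasurable]
    exact hn₀ n hn
  obtain ⟨g, hg⟩ : ∃ g : ℕ → ℝ → ℝ≥0∞, g = fun m t => ∑ n ∈ Ioc (2 ^ m) (2 ^ (m + 1)), (F n).indicator (fun _ => 1) t := ⟨_, rfl⟩
  have hgm : ∀ m, Measurable (g m) := by
    intro m
    rw [hg]
    exact Finset.measurable_sum _ fun n _ => measurable_const.indicator (hFm n)
  have hgi : ∀ m, n₀ ≤ 2 ^ m → ∫⁻ t, g m t ≤ ENNReal.ofReal (C * ((2 : ℝ) ^ m) ^ (1 + γ)) := by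
    intro m hm
    rw [hg]
    simp only
    rw [lintegral_finsetSum _ (fun n _ => measurable_const.indicator (hFm n))]
    have h1 : ∀ n ∈ Ioc (2 ^ m) (2 ^ (m + 1)), ∫⁻ t, (F n).indicator (fun _ => (1 : ℝ≥0∞)) t ≤
        ENNReal.ofReal (C * ((2 : ℝ) ^ m) ^ γ) := by
      intro n hn
      rw [mem_Ioc] at hn
      rw [lintegral_indicator_const (hFm n), one_mul]
      refine (hFv n (by omega)).trans (ENNReal.ofReal_le_ofReal ?_)
      have h2 : ((2 : ℝ) ^ m) ≤ n := by exact_mod_cast hn.1.le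
      exact mul_le_mul_of_nonneg_left (Real.rpow_le_rpow_of_nonpos (by positivity) h2 hγ0) hC.le
    refine (sum_le_sum h1).trans ?_
    rw [sum_const, Nat.card_Ioc, ← ENNReal.ofReal_nsmul]
    apply ENNReal.ofReal_le_ofReal
    rw [nsmul_eq_mul]
    have h3 : ((2 ^ (m + 1) - 2 ^ m : ℕ) : ℝ) = 2 ^ m := by
      have : 2 ^ (m + 1) - 2 ^ m = 2 ^ m := by rw [pow_succ]; omega
      rw [this]
      push_cast
      rfl
    rw [h3, Real.rpow_add (by positivity), Real.rpow_one]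
    apply le_of_eq
    ring
  have hmk : ∀ m, n₀ ≤ 2 ^ m → volume {t : ℝ | ENNReal.ofReal (((2 : ℝ) ^ m) ^ e) ≤ g m t} ≤
      ENNReal.ofReal (C * ((2 : ℝ) ^ (1 + γ - e)) ^ m) := by
    intro m hm
    have h2p : (0 : ℝ) < 2 ^ m := by positivity
    have h2e : 0 < ((2 : ℝ) ^ m) ^ e := Real.rpow_pos_of_pos h2p _
    have h1 := mul_meas_ge_le_lintegral (μ := volume) (hgm m) (ENNReal.ofReal (((2 : ℝ) ^ m) ^ e))
    have h2 := h1.trans (hgi m hm)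
    have h3 : volume {t : ℝ | ENNReal.ofReal (((2 : ℝ) ^ m) ^ e) ≤ g m t} ≤
        ENNReal.ofReal (C * ((2 : ℝ) ^ m) ^ (1 + γ)) / ENNReal.ofReal (((2 : ℝ) ^ m) ^ e) := by
      rw [ENNReal.le_div_iff_mul_le (Or.inl (ENNReal.ofReal_pos.2 h2e).ne') (Or.inl ENNReal.ofReal_ne_top), mul_comm]
      exact h2
    refine h3.trans (le_of_eq ?_)
    rw [← ENNReal.ofReal_div_of_pos h2e]
    congr 1
    rw [mul_div_assoc, ← Real.rpow_sub h2p, ← Real.rpow_natCast 2 m, ← Real.rpow_natCast ((2 : ℝ) ^ (1 + γ - e)) m,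
      ← Real.rpow_mul (by norm_num), ← Real.rpow_mul (by norm_num), mul_comm (m : ℝ)]
  obtain ⟨q, hq⟩ : ∃ q, q = (2 : ℝ) ^ (1 + γ - e) := ⟨_, rfl⟩
  have hq0 : 0 < q := by rw [hq]; positivity
  have hq1 : q < 1 := by rw [hq]; exact Real.rpow_lt_one_of_one_lt_of_neg (by norm_num) (by linarith)
  obtain ⟨m₀, hm₀⟩ : ∃ m₀ : ℕ, n₀ ≤ 2 ^ m₀ := ⟨n₀, Nat.lt_two_pow_self.le⟩
  have hsum : ∑' m : ℕ, volume {t : ℝ | ENNReal.ofReal (((2 : ℝ) ^ (m₀ + m)) ^ e) ≤ g (m₀ + m) t} ≠ ∞ := by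
    have h1 : ∑' m : ℕ, volume {t : ℝ | ENNReal.ofReal (((2 : ℝ) ^ (m₀ + m)) ^ e) ≤ g (m₀ + m) t} ≤
        ∑' m : ℕ, ENNReal.ofReal (C * q ^ m) := by
      refine ENNReal.tsum_le_tsum fun m => ?_
      refine (hmk (m₀ + m) (hm₀.trans (Nat.pow_le_pow_right (by norm_num) (by omega)))).trans ?_
      rw [← hq]
      apply ENNReal.ofReal_le_ofReal
      exact mul_le_mul_of_nonneg_left (pow_le_pow_of_le_one hq0.le hq1.le (by omega)) hC.le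
    exact ne_top_of_le_ne_top ((summable_geometric_of_lt_one hq0.le hq1).mul_left C).tsum_ofReal_ne_top h1
  filter_upwards [ae_eventually_notMem hsum] with t ht hts
  obtain ⟨m₁, hm₁⟩ := eventually_atTop.1 ht
  filter_upwards [eventually_ge_atTop (m₀ + m₁)] with m hm
  obtain ⟨i, rfl⟩ := Nat.exists_eq_add_of_le (show m₀ ≤ m by omega)
  have h1 := hm₁ i (by omega)
  rw [not_le] at h1
  obtain ⟨T, hT⟩ : ∃ T : Finset ℕ, T = (Ioc (2 ^ (m₀ + i)) (2 ^ (m₀ + i + 1))).filter (fun n : ℕ => (n : ℝ) ^ t ∈ A) := ⟨_, rfl⟩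
  have hTs : {n : ℕ | 2 ^ (m₀ + i) < n ∧ n ≤ 2 ^ (m₀ + i + 1) ∧ (n : ℝ) ^ t ∈ A} = (T : Set ℕ) := by
    ext n
    rw [hT]
    simp only [Set.mem_ofPred_eq, coe_filter, mem_Ioc, and_assoc]
  rw [hTs, Set.ncard_coe_finset]
  have h2 : (T.card : ℝ≥0∞) ≤ g (m₀ + i) t := by
    rw [hg]
    simp only
    have h3 : (T.card : ℝ≥0∞) = ∑ n ∈ T, (F n).indicator (fun _ => (1 : ℝ≥0∞)) t := by
      rw [sum_congr rfl (g := fun _ => (1 : ℝ≥0∞)), sum_const, nsmul_one]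
      intro n hn
      rw [hT, mem_filter] at hn
      exact Set.indicator_of_mem (hFs n ⟨hts, hn.2⟩) _
    rw [h3]
    apply sum_le_sum_of_subset
    rw [hT]
    exact filter_subset _ _
  have h4 : (T.card : ℝ≥0∞) ≤ ENNReal.ofReal (((2 : ℝ) ^ (m₀ + i)) ^ e) := h2.trans h1.le
  rw [show (T.card : ℝ≥0∞) = ENNReal.ofReal (T.card : ℝ) by simp, ENNReal.ofReal_le_ofReal_iff (by positivity)] at h4
  exact h4

/-- the number of the `n ≤ N` with `n ^ t ∈ A`, for almost every `t` -/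
theorem gen_count {A : Set ℝ} {θ ρ : ℝ} (hA : Cov A θ ρ) (hγ : ρ - (1 - θ) < 0) (hθ : θ ≤ 1) {c₁ c₂ E : ℝ} (hc : 1 ≤ c₁)
    (hE : 0 < E) (he : 1 + c₁ * (ρ - (1 - θ)) < E) :
    ∀ᵐ t : ℝ, t ∈ Set.Icc c₁ c₂ → ∀ᶠ N : ℕ in atTop,
      ({n : ℕ | 1 ≤ n ∧ n ≤ N ∧ (n : ℝ) ^ t ∈ A}.ncard : ℝ) ≤ (N : ℝ) ^ E := by
  classical
  obtain ⟨E', hE'1, hE'2⟩ : ∃ E', max (1 + c₁ * (ρ - (1 - θ))) 0 < E' ∧ E' < E := exists_between (max_lt he hE)
  have hE'0 : 0 < E' := (le_max_right _ _).trans_lt hE'1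
  filter_upwards [gen_block (c₂ := c₂) hA hγ hθ hc ((le_max_left _ _).trans_lt hE'1)] with t ht hts
  obtain ⟨m₀, hm₀⟩ := eventually_atTop.1 (ht hts)
  filter_upwards [log_ev (1 / Real.log 2) ((2 : ℝ) ^ m₀ + 1) (show 0 < E - E' by linarith), eventually_ge_atTop 1] with N hN hN1
  have hNr : (1 : ℝ) ≤ N := by exact_mod_cast hN1
  have hN0 : (0 : ℝ) < N := by linarith
  have hl2 : 0 < Real.log 2 := Real.log_pos (by norm_num)
  obtain ⟨J, hJ⟩ : ∃ J, J = ⌊Real.log N / Real.log 2⌋₊ := ⟨_, rfl⟩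
  obtain ⟨B, hB⟩ : ∃ B : ℕ → Finset ℕ, B = fun m => (Ioc (2 ^ m) (2 ^ (m + 1))).filter (fun n : ℕ => (n : ℝ) ^ t ∈ A) := ⟨_, rfl⟩
  have hBc : ∀ m ∈ range (J + 1), m₀ ≤ m → ((B m).card : ℝ) ≤ (N : ℝ) ^ E' := by
    intro m hmJ hm
    have h1 := hm₀ m hm
    have hs : {n : ℕ | 2 ^ m < n ∧ n ≤ 2 ^ (m + 1) ∧ (n : ℝ) ^ t ∈ A} = (B m : Set ℕ) := by
      ext n
      rw [hB]
      simp only [Set.mem_ofPred_eq, coe_filter, mem_Ioc, and_assoc]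
    rw [hs, Set.ncard_coe_finset] at h1
    refine h1.trans (Real.rpow_le_rpow (by positivity) ?_ hE'0.le)
    rw [mem_range, Nat.lt_succ_iff, hJ] at hmJ
    have h2 := (Nat.le_floor_iff (div_nonneg (Real.log_nonneg hNr) hl2.le)).1 hmJ
    rw [le_div_iff₀ hl2, ← Real.log_pow] at h2
    exact (Real.log_le_log_iff (by positivity) hN0).1 h2
  obtain ⟨T, hT⟩ : ∃ T : Finset ℕ, T = (Icc 1 N).filter (fun n : ℕ => (n : ℝ) ^ t ∈ A) := ⟨_, rfl⟩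
  have hTs : {n : ℕ | 1 ≤ n ∧ n ≤ N ∧ (n : ℝ) ^ t ∈ A} = (T : Set ℕ) := by
    ext n
    rw [hT]
    simp only [Set.mem_ofPred_eq, coe_filter, mem_Icc, and_assoc]
  rw [hTs, Set.ncard_coe_finset]
  have hsub : T ⊆ Icc 1 (2 ^ m₀) ∪ ((range (J + 1)).filter (fun m => m₀ ≤ m)).biUnion B := by
    intro n hn
    rw [hT, mem_filter, mem_Icc] at hn
    obtain ⟨⟨hn1, hn2⟩, hnA⟩ := hn
    rw [mem_union]
    rcases le_or_gt n (2 ^ m₀) with h | h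
    · left
      rw [mem_Icc]
      exact ⟨hn1, h⟩
    · right
      have hn2' : 1 < n := lt_of_le_of_lt Nat.one_le_two_pow h
      -- `2 ^ m < n ≤ 2 ^ (m + 1)`
      obtain ⟨m, hm⟩ : ∃ m, m = Nat.log 2 (n - 1) := ⟨_, rfl⟩
      have g1 : 2 ^ m ≤ n - 1 := by rw [hm]; exact Nat.pow_log_le_self 2 (by omega)
      have g2 : n - 1 < 2 ^ (m + 1) := by rw [hm]; exact Nat.lt_pow_succ_log_self (by norm_num) _
      have g3 : m₀ ≤ m := by
        by_contra hcon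
        push Not at hcon
        have : 2 ^ (m + 1) ≤ 2 ^ m₀ := Nat.pow_le_pow_right (by norm_num) hcon
        omega
      rw [mem_biUnion]
      refine ⟨m, ?_, ?_⟩
      · rw [mem_filter, mem_range, Nat.lt_succ_iff, hJ]
        refine ⟨?_, g3⟩
        apply Nat.le_floor
        rw [le_div_iff₀ hl2, ← Real.log_pow]
        apply Real.log_le_log (by positivity)
        have : 2 ^ m ≤ N := by omega
        exact_mod_cast this
      · rw [hB]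
        simp only
        rw [mem_filter, mem_Ioc]
        exact ⟨⟨by omega, by omega⟩, hnA⟩
  have h1 : (T.card : ℝ) ≤ (2 : ℝ) ^ m₀ + (J + 1) * (N : ℝ) ^ E' := by
    have g1 : (T.card : ℝ) ≤ ((Icc 1 (2 ^ m₀)).card : ℝ) + ((((range (J + 1)).filter (fun m => m₀ ≤ m)).biUnion B).card : ℝ) := by
      exact_mod_cast (card_le_card hsub).trans (card_union_le _ _)
    have g2 : ((((range (J + 1)).filter (fun m => m₀ ≤ m)).biUnion B).card : ℝ) ≤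
        ∑ m ∈ (range (J + 1)).filter (fun m => m₀ ≤ m), ((B m).card : ℝ) := by
      exact_mod_cast card_biUnion_le
    have g3 : ∑ m ∈ (range (J + 1)).filter (fun m => m₀ ≤ m), ((B m).card : ℝ) ≤
        ∑ m ∈ (range (J + 1)).filter (fun m => m₀ ≤ m), (N : ℝ) ^ E' := by
      apply sum_le_sum
      intro m hm
      rw [mem_filter] at hm
      exact hBc m hm.1 hm.2
    have g4 : ∑ m ∈ (range (J + 1)).filter (fun m => m₀ ≤ m), (N : ℝ) ^ E' ≤ (J + 1) * (N : ℝ) ^ E' := by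
      rw [sum_const, nsmul_eq_mul]
      have : (((range (J + 1)).filter (fun m => m₀ ≤ m)).card : ℝ) ≤ J + 1 := by
        have := card_filter_le (range (J + 1)) (fun m => m₀ ≤ m)
        rw [card_range] at this
        exact_mod_cast this
      gcongr
    rw [Nat.card_Icc, Nat.add_sub_cancel] at g1
    push_cast at g1
    linarith
  refine h1.trans ?_
  have hJle : (J : ℝ) ≤ Real.log N / Real.log 2 := by
    rw [hJ]
    exact Nat.floor_le (div_nonneg (Real.log_nonneg hNr) hl2.le)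
  have hNE : 1 ≤ (N : ℝ) ^ E' := Real.one_le_rpow hNr hE'0.le
  have h2m : (0 : ℝ) < 2 ^ m₀ := by positivity
  calc (2 : ℝ) ^ m₀ + (J + 1) * (N : ℝ) ^ E' ≤ (2 : ℝ) ^ m₀ * (N : ℝ) ^ E' + (Real.log N / Real.log 2 + 1) * (N : ℝ) ^ E' := by
        gcongr
        exact le_mul_of_one_le_right h2m.le hNE
    _ = (1 / Real.log 2 * Real.log N + ((2 : ℝ) ^ m₀ + 1)) * (N : ℝ) ^ E' := by ring
    _ ≤ (N : ℝ) ^ (E - E') * (N : ℝ) ^ E' := by gcongr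
    _ = (N : ℝ) ^ E := by
        rw [← Real.rpow_add hN0]
        congr 1
        ring

end Pool.Agent.H83SI
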