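import Pool.Agent.H83SI.Cov
import Pool.Agent.H83SI.Gen

/-!
# The asymptotic formula along generic sequences
-/

set_option autoImplicit false

namespace Pool.Agent.H83SI

open Finset Filter Topology MeasureTheory Pool.Agent.U26Z.DX
open scoped NNReal ENNReal

/-- the asymptotic formula after all the `x k`, uniformly for `x k ^ θ ≤ H ≤ x k` -/
def Good (θ : ℝ) (x : ℕ → ℝ) : Prop :=
  ∀ δ : ℝ, 0 < δ → ∀ᶠ k : ℕ in atTop, ∀ H : ℝ, x k ^ θ ≤ H → H ≤ x k → |density (x k) H - 1| ≤ δ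

/-- the number of the exceptions `n ≤ N` at `n ^ c` is at most `N ^ E` -/
def Few (θ c E : ℝ) : Prop :=
  ∀ δ : ℝ, 0 < δ → ∀ᶠ N : ℕ in atTop, ({n : ℕ | 1 ≤ n ∧ n ≤ N ∧ ∃ H : ℝ, ((n : ℝ) ^ c) ^ θ ≤ H ∧ H ≤ (n : ℝ) ^ c ∧
    δ < |density ((n : ℝ) ^ c) H - 1|}.ncard : ℝ) ≤ (N : ℝ) ^ E

/-- the dimension of the exceptional set of a family of sequences -/
def DimLaw (θ μ : ℝ) : Prop :=
  ∀ (S : Set ℝ) (f : ℕ → ℝ → ℝ) (a : ℕ → ℝ) (c₀ κ : ℝ), 0 < c₀ → 0 < κ → κ < μ → (∀ k, 0 < a k) →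
    Summable (fun k => a k ^ (-κ)) → (∀ k, ∀ t ∈ S, a k ≤ f k t) →
    (∀ᶠ k : ℕ in atTop, ∀ t ∈ S, ∀ t' ∈ S, c₀ * |t - t'| ≤ |Real.log (f k t) - Real.log (f k t')|) →
    dimH {t : ℝ | t ∈ S ∧ ¬ Good θ (fun k => f k t)} ≤ ENNReal.ofReal (1 - (μ - κ) / (1 - θ))

/-- every `δ`-bad set is covered -/
theorem cov_bad {θ μ η : ℝ} (hθ0 : 0.167 ≤ θ) (hθ1 : θ ≤ 1) (hμ : 0 ≤ μ) (hη : 0 < η) (hv : Vol θ μ η) {δ : ℝ}
    (hδ : 0 < δ) : Cov (Bad θ δ) θ (1 - θ - μ - η / 2) := by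
  obtain ⟨ε, hε⟩ : ∃ ε, ε = min (δ / 10) (1 / 10) := ⟨_, rfl⟩
  have hε0 : 0 < ε := by rw [hε]; positivity
  have hε1 : ε ≤ 1 / 10 := by rw [hε]; exact min_le_right _ _
  have hεδ : 10 * ε ≤ δ := by
    have : ε ≤ δ / 10 := by rw [hε]; exact min_le_left _ _
    linarith
  refine Cov.mono (B := Bad θ (10 * ε)) ?_ (cover hθ0 hθ1 hμ hη hv hε0 hε1)
  rintro y ⟨H, h1, h2, h3⟩
  exact ⟨H, h1, h2, by linarith⟩

theorem not_good_iff {θ : ℝ} {x : ℕ → ℝ} : ¬ Good θ x ↔ ∃ m : ℕ, ∃ᶠ k : ℕ in atTop, x k ∈ Bad θ (1 / ((m : ℝ) + 1)) := by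
  constructor
  · intro h
    unfold Good at h
    push Not at h
    obtain ⟨δ, hδ, h⟩ := h
    obtain ⟨m, hm⟩ := exists_nat_one_div_lt hδ
    refine ⟨m, ?_⟩
    rw [frequently_atTop]
    intro K
    obtain ⟨k, hk1, H, h1, h2, h3⟩ := (frequently_atTop.1 h) K
    exact ⟨k, hk1, H, h1, h2, by linarith⟩
  · rintro ⟨m, hm⟩ h
    have h1 := h (1 / ((m : ℝ) + 1)) (by positivity)
    obtain ⟨k, hk, hk1⟩ := (hm.and_eventually h1).exists
    obtain ⟨H, h2, h3, h4⟩ := hk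
    have := hk1 H h2 h3
    linarith

theorem dimLaw {θ μ η : ℝ} (hθ0 : 0.167 ≤ θ) (hθ1 : θ < 1) (hμ : 0 ≤ μ) (hη : 0 < η) (hv : Vol θ μ η) (hθμ : μ < 1 - θ)
    (S : Set ℝ) (f : ℕ → ℝ → ℝ) (a : ℕ → ℝ) {c₀ κ κ' : ℝ} (hc₀ : 0 < c₀) (hκ : 0 < κ) (hκκ : κ ≤ κ' + η / 2)
    (hκ0 : 0 ≤ κ') (ha : ∀ k, 0 < a k)
    (hsum : Summable (fun k => a k ^ (-κ))) (hf : ∀ k, ∀ t ∈ S, a k ≤ f k t)
    (hL : ∀ᶠ k : ℕ in atTop, ∀ t ∈ S, ∀ t' ∈ S, c₀ * |t - t'| ≤ |Real.log (f k t) - Real.log (f k t')|) :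
    dimH {t : ℝ | t ∈ S ∧ ¬ Good θ (fun k => f k t)} ≤ ENNReal.ofReal (1 - (μ - κ') / (1 - θ)) := by
  have h1θ : 0 < 1 - θ := by linarith
  have hs : 0 < 1 - (μ - κ') / (1 - θ) := by
    rw [sub_pos, div_lt_one h1θ]
    linarith
  have e : {t : ℝ | t ∈ S ∧ ¬ Good θ (fun k => f k t)} =
      ⋃ m : ℕ, {t : ℝ | t ∈ S ∧ ∃ᶠ k : ℕ in atTop, f k t ∈ Bad θ (1 / ((m : ℝ) + 1))} := by
    ext t
    simp only [Set.mem_ofPred_eq, Set.mem_iUnion, not_good_iff]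
    constructor
    · rintro ⟨h1, m, h2⟩
      exact ⟨m, h1, h2⟩
    · rintro ⟨m, h1, h2⟩
      exact ⟨h1, m, h2⟩
  rw [e, dimH_iUnion]
  refine iSup_le fun m => ?_
  refine dim_le (cov_bad hθ0 hθ1.le hμ hη hv (show 0 < 1 / ((m : ℝ) + 1) by positivity)) hs hκ ?_ hθ1 S f a ha hf hsum hc₀ hL
  have : (1 - θ) * (1 - (μ - κ') / (1 - θ)) = (1 - θ) - (μ - κ') := by field_simp
  rw [this]
  linarith

theorem good_shift {θ : ℝ} {x : ℕ → ℝ} (K : ℕ) : Good θ (fun k => x (k + K)) ↔ Good θ x := by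
  unfold Good
  constructor
  · intro h δ hδ
    have h1 := h δ hδ
    rw [eventually_atTop] at h1 ⊢
    obtain ⟨k₀, hk₀⟩ := h1
    refine ⟨k₀ + K, fun k hk => ?_⟩
    obtain ⟨i, rfl⟩ := Nat.exists_eq_add_of_le (show K ≤ k by omega)
    have := hk₀ i (by omega)
    simp only [add_comm i K] at this
    exact this
  · intro h δ hδ
    exact (tendsto_add_atTop_nat K).eventually (h δ hδ)

/-- the powers of the integers -/
theorem dim_pow {θ μ η : ℝ} (hθ0 : 0.167 ≤ θ) (hθ1 : θ < 1) (hμ : 0 < μ) (hη : 0 < η) (hv : Vol θ μ η) (hθμ : μ < 1 - θ)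
    {c₁ : ℝ} (hc₁ : 1 / μ < c₁) :
    dimH {c : ℝ | c₁ ≤ c ∧ ¬ Good θ (fun n => (n : ℝ) ^ c)} ≤ ENNReal.ofReal (1 - (μ - 1 / c₁) / (1 - θ)) := by
  have hc0 : 0 < c₁ := lt_trans (by positivity) hc₁
  have e : {c : ℝ | c₁ ≤ c ∧ ¬ Good θ (fun n => (n : ℝ) ^ c)} =
      {c : ℝ | c ∈ Set.Ici c₁ ∧ ¬ Good θ (fun k : ℕ => ((k + 1 : ℕ) : ℝ) ^ c)} := by
    ext c
    simp only [Set.mem_ofPred_eq, Set.mem_Ici]
    rw [← good_shift (x := fun n : ℕ => (n : ℝ) ^ c) 1]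
  rw [e]
  refine dimLaw hθ0 hθ1 hμ.le hη hv hθμ (Set.Ici c₁) (fun k c => ((k + 1 : ℕ) : ℝ) ^ c) (fun k => ((k + 1 : ℕ) : ℝ) ^ c₁)
    (Real.log_pos (show (1 : ℝ) < 2 by norm_num)) (κ := 1 / c₁ + η / 2) (by positivity) le_rfl (by positivity)
    (fun k => Real.rpow_pos_of_pos (by positivity) _) ?_ ?_ ?_
  · have h1 : Summable fun n : ℕ => (n : ℝ) ^ (c₁ * (-(1 / c₁ + η / 2))) := by
      rw [Real.summable_nat_rpow]
      have : c₁ * (-(1 / c₁ + η / 2)) = -1 - c₁ * η / 2 := by field_simp; ring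
      rw [this]
      have : 0 < c₁ * η / 2 := by positivity
      linarith
    have h2 := (summable_nat_add_iff 1).2 h1
    refine h2.congr fun k => ?_
    rw [← Real.rpow_mul (Nat.cast_nonneg _)]
  · intro k c hc
    exact Real.rpow_le_rpow_of_exponent_le (by push_cast; linarith [Nat.cast_nonneg (α := ℝ) k]) hc
  · filter_upwards [eventually_ge_atTop 1] with k hk c _ c' _
    exact pow_lip (by omega) c c'

/-- powers of a generic real number -/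
theorem dim_exp {θ μ η : ℝ} (hθ0 : 0.167 ≤ θ) (hθ1 : θ < 1) (hμ : 0 < μ) (hη : 0 < η) (hv : Vol θ μ η) (hθμ : μ < 1 - θ)
    (b : ℕ → ℝ) (hb : Tendsto (fun k : ℕ => b k / Real.log k) atTop atTop) :
    dimH {α : ℝ | 1 < α ∧ ¬ Good θ (fun k => α ^ b k)} ≤ ENNReal.ofReal (1 - μ / (1 - θ)) := by
  have e : {α : ℝ | 1 < α ∧ ¬ Good θ (fun k => α ^ b k)} =
      ⋃ m : ℕ, {α : ℝ | α ∈ Set.Icc (1 + 1 / ((m : ℝ) + 1)) ((m : ℝ) + 1) ∧ ¬ Good θ (fun k => α ^ b k)} := by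
    ext α
    simp only [Set.mem_ofPred_eq, Set.mem_iUnion, Set.mem_Icc]
    constructor
    · rintro ⟨h1, h2⟩
      obtain ⟨m₁, hm₁⟩ := exists_nat_one_div_lt (show 0 < α - 1 by linarith)
      obtain ⟨m₂, hm₂⟩ := exists_nat_ge α
      refine ⟨m₁ + m₂, ⟨?_, ?_⟩, h2⟩
      · have : 1 / (((m₁ + m₂ : ℕ) : ℝ) + 1) ≤ 1 / ((m₁ : ℝ) + 1) := by
          apply one_div_le_one_div_of_le (by positivity)
          push_cast
          linarith [Nat.cast_nonneg (α := ℝ) m₂]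
        linarith
      · push_cast
        linarith [Nat.cast_nonneg (α := ℝ) m₁]
    · rintro ⟨m, ⟨h1, _⟩, h3⟩
      have : 0 < 1 / ((m : ℝ) + 1) := by positivity
      exact ⟨by linarith, h3⟩
  rw [e, dimH_iUnion]
  refine iSup_le fun m => ?_
  obtain ⟨α₀, hα₀⟩ : ∃ α₀, α₀ = 1 + 1 / ((m : ℝ) + 1) := ⟨_, rfl⟩
  obtain ⟨α₁, hα₁⟩ : ∃ α₁, α₁ = (m : ℝ) + 1 := ⟨_, rfl⟩
  have hα₀1 : 1 < α₀ := by
    rw [hα₀]
    have : 0 < 1 / ((m : ℝ) + 1) := by positivity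
    linarith
  have hα₁0 : 0 < α₁ := by rw [hα₁]; positivity
  have hla : 0 < Real.log α₀ := Real.log_pos hα₀1
  rw [← hα₀, ← hα₁]
  -- for large `k`
  have hlog := Real.tendsto_log_atTop.comp (tendsto_natCast_atTop_atTop (R := ℝ))
  obtain ⟨K, hK⟩ := eventually_atTop.1 ((hb.eventually_ge_atTop (max 1 (4 / (η * Real.log α₀)))).and
    (hlog.eventually_ge_atTop 1))
  have hbk : ∀ k, K ≤ k → 1 ≤ b k ∧ 2 * Real.log k ≤ η / 2 * b k * Real.log α₀ := by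
    intro k hk
    obtain ⟨h1, h2⟩ := hK k hk
    simp only [Function.comp_apply] at h2
    have hl0 : 0 < Real.log (k : ℝ) := by linarith
    rw [le_div_iff₀ hl0] at h1
    have h3 := mul_le_mul_of_nonneg_right (le_max_left 1 (4 / (η * Real.log α₀))) hl0.le
    have h4 := mul_le_mul_of_nonneg_right (le_max_right 1 (4 / (η * Real.log α₀))) hl0.le
    refine ⟨by linarith, ?_⟩
    have h5 : 4 / (η * Real.log α₀) * Real.log k ≤ b k := h4.trans h1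
    rw [div_mul_eq_mul_div, div_le_iff₀ (by positivity)] at h5
    linarith
  have e2 : {α : ℝ | α ∈ Set.Icc α₀ α₁ ∧ ¬ Good θ (fun k => α ^ b k)} =
      {α : ℝ | α ∈ Set.Icc α₀ α₁ ∧ ¬ Good θ (fun k => α ^ b (k + (K + 1)))} := by
    ext α
    simp only [Set.mem_ofPred_eq]
    rw [← good_shift (x := fun n : ℕ => α ^ b n) (K + 1)]
  rw [e2]
  have e3 : 1 - μ / (1 - θ) = 1 - (μ - 0) / (1 - θ) := by rw [sub_zero]
  rw [e3]
  refine dimLaw hθ0 hθ1 hμ.le hη hv hθμ (Set.Icc α₀ α₁) (fun k α => α ^ b (k + (K + 1))) (fun k => α₀ ^ b (k + (K + 1)))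
    (show 0 < 1 / α₁ by positivity) (κ := η / 2) (by positivity) (by linarith) le_rfl
    (fun k => Real.rpow_pos_of_pos (by linarith) _) ?_ ?_ ?_
  · have h1 : Summable fun n : ℕ => (n : ℝ) ^ (-2 : ℝ) := by
      rw [Real.summable_nat_rpow]
      norm_num
    have h2 := (summable_nat_add_iff (K + 1)).2 h1
    refine Summable.of_nonneg_of_le (fun k => by positivity) (fun k => ?_) h2
    obtain ⟨h3, h4⟩ := hbk (k + (K + 1)) (by omega)
    have hk0 : (0 : ℝ) < ((k + (K + 1) : ℕ) : ℝ) := by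
      have : 0 < k + (K + 1) := by omega
      exact_mod_cast this
    rw [← Real.rpow_mul (by linarith), Real.rpow_def_of_pos (by linarith), Real.rpow_def_of_pos hk0]
    apply Real.exp_le_exp.2
    linarith
  · intro k α hα
    exact Real.rpow_le_rpow (by linarith) hα.1 (by linarith [(hbk (k + (K + 1)) (by omega)).1])
  · refine Eventually.of_forall fun k α hα α' hα' => ?_
    have h3 := (hbk (k + (K + 1)) (by omega)).1
    have hα0 : 0 < α := by linarith [hα.1]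
    have hα'0 : 0 < α' := by linarith [hα'.1]
    rw [Real.log_rpow hα0, Real.log_rpow hα'0, ← mul_sub, abs_mul]
    have h4 : 1 / α₁ * |α - α'| ≤ |Real.log α - Real.log α'| := by
      have key : ∀ x y : ℝ, 0 < x → x ≤ y → y ≤ α₁ → 1 / α₁ * (y - x) ≤ Real.log y - Real.log x := by
        intro x y hx hxy hy
        have hy0 : 0 < y := by linarith
        rw [← Real.log_div hy0.ne' hx.ne']
        have h1 := Real.one_sub_inv_le_log_of_pos (show 0 < y / x by positivity)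
        have h2 : 1 - (y / x)⁻¹ = (y - x) / y := by field_simp
        rw [h2] at h1
        refine le_trans ?_ h1
        rw [one_div_mul_eq_div]
        exact div_le_div_of_nonneg_left (by linarith) hy0 hy
      rcases le_total α α' with h | h
      · have := key α α' hα0 h hα'.2
        rw [abs_sub_comm, abs_of_nonneg (by linarith), abs_sub_comm]
        exact this.trans (le_abs_self _)
      · have := key α' α hα'0 h hα.2
        rw [abs_of_nonneg (by linarith)]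
        exact this.trans (le_abs_self _)
    have h5 : 1 ≤ |b (k + (K + 1))| := h3.trans (le_abs_self _)
    nlinarith [abs_nonneg (Real.log α - Real.log α')]

end Pool.Agent.H83SI
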