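import Pool.Agent.H83SI.Fin
import Pool.Agent.U26Z.DX.Opt3

/-!
# The powers `n ^ c`: every `c`, almost every `c`; the exponents
-/

set_option autoImplicit false

namespace Pool.Agent.H83SI

open Finset Filter Topology MeasureTheory Pool.Agent.U26Z.DX
open scoped NNReal ENNReal

theorem Bad_anti {θ δ δ' : ℝ} (h : δ ≤ δ') : Bad θ δ' ⊆ Bad θ δ := by
  rintro y ⟨H, h1, h2, h3⟩
  exact ⟨H, h1, h2, by linarith⟩

/-- every `c ≥ 1` -/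
theorem few_all {θ μ η : ℝ} (hθ0 : 0.167 ≤ θ) (hθ1 : θ < 1) (hμ : 0 ≤ μ) (hη : 0 < η) (hv : Vol θ μ η) (hθμ : μ < 1 - θ)
    {c : ℝ} (hc : 1 ≤ c) : Few θ c (max (1 - μ * c) ((1 - θ - μ) * c)) := by
  intro δ hδ
  have hc0 : 0 < c := by linarith
  have h1 : 0 < (1 - θ - μ) * c := mul_pos (by linarith) hc0
  have h2 : 0 < η / 2 * c := by positivity
  exact count_pow (cov_bad hθ0 hθ1.le hμ hη hv hδ) hc (lt_max_of_lt_right h1)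
    (lt_max_of_lt_right (by nlinarith)) (lt_max_of_lt_left (by nlinarith))

/-- almost every `c` in `[1, 1 / μ)` -/
theorem few_gen {θ μ η : ℝ} (hθ0 : 0.167 ≤ θ) (hθ1 : θ < 1) (hμ : 0 < μ) (hη : 0 < η) (hv : Vol θ μ η) (hθμ : μ < 1 - θ) :
    ∀ᵐ c : ℝ, 1 ≤ c → c < 1 / μ → Few θ c (1 - μ * c) := by
  obtain ⟨h, hh⟩ : ∃ h, h = η / 8 := ⟨_, rfl⟩
  have hh0 : 0 < h := by rw [hh]; positivity
  have hμ1 : μ < 1 := by linarith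
  have hall : ∀ᵐ c : ℝ, ∀ (m i : ℕ) (E : ℚ), 0 < (E : ℝ) → 1 + (1 + i * h) * ((1 - θ - μ - η / 2) - (1 - θ)) < E →
      c ∈ Set.Icc (1 + i * h) (1 + (i + 1) * h) → ∀ᶠ N : ℕ in atTop,
        ({n : ℕ | 1 ≤ n ∧ n ≤ N ∧ (n : ℝ) ^ c ∈ Bad θ (1 / ((m : ℝ) + 1))}.ncard : ℝ) ≤ (N : ℝ) ^ (E : ℝ) := by
    rw [ae_all_iff]
    intro m
    rw [ae_all_iff]
    intro i
    rw [ae_all_iff]
    intro E
    by_cases hE : 0 < (E : ℝ) ∧ 1 + (1 + i * h) * ((1 - θ - μ - η / 2) - (1 - θ)) < E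
    · have hi : (0 : ℝ) ≤ i * h := by positivity
      filter_upwards [gen_count (c₁ := 1 + i * h) (c₂ := 1 + (i + 1) * h) (E := E)
        (cov_bad hθ0 hθ1.le hμ.le hη hv (show 0 < 1 / ((m : ℝ) + 1) by positivity)) (by linarith) hθ1.le (by linarith)
        hE.1 hE.2] with c hc _ _ hcm
      exact hc hcm
    · exact ae_of_all _ fun c h1 h2 => absurd ⟨h1, h2⟩ hE
  filter_upwards [hall] with c hc hc1 hc2 δ hδ
  obtain ⟨m, hm⟩ := exists_nat_one_div_lt hδ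
  obtain ⟨i, hi⟩ : ∃ i, i = ⌊(c - 1) / h⌋₊ := ⟨_, rfl⟩
  have h0 : 0 ≤ (c - 1) / h := div_nonneg (by linarith) hh0.le
  have i1 : 1 + (i : ℝ) * h ≤ c := by
    have := Nat.floor_le h0
    rw [← hi, le_div_iff₀ hh0] at this
    linarith
  have i2 : c ≤ 1 + ((i : ℝ) + 1) * h := by
    have := Nat.lt_floor_add_one ((c - 1) / h)
    rw [← hi, div_lt_iff₀ hh0] at this
    linarith
  have hpos : 0 < 1 - μ * c := by
    rw [lt_div_iff₀ hμ] at hc2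
    linarith
  have hlt : 1 + (1 + i * h) * ((1 - θ - μ - η / 2) - (1 - θ)) < 1 - μ * c := by
    have e : (1 - θ - μ - η / 2) - (1 - θ) = -(μ + η / 2) := by ring
    rw [e]
    have g1 : μ * c ≤ μ * (1 + ((i : ℝ) + 1) * h) := mul_le_mul_of_nonneg_left i2 hμ.le
    have g2 : 0 ≤ (i : ℝ) * h := by positivity
    have g3 : μ * h < h := by nlinarith
    have g4 : h = η / 8 := hh
    nlinarith
  obtain ⟨E, hE1, hE2⟩ := exists_rat_btwn (max_lt hlt hpos)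
  have h1 := hc m i E ((le_max_right _ _).trans_lt hE1) ((le_max_left _ _).trans_lt hE1) ⟨i1, i2⟩
  filter_upwards [h1, eventually_ge_atTop 1] with N h2 hN
  have hN1 : (1 : ℝ) ≤ N := by exact_mod_cast hN
  refine le_trans ?_ (h2.trans (Real.rpow_le_rpow_of_exponent_le hN1 hE2.le))
  have hfin : {n : ℕ | 1 ≤ n ∧ n ≤ N ∧ (n : ℝ) ^ c ∈ Bad θ (1 / ((m : ℝ) + 1))}.Finite :=
    (Set.finite_Icc 1 N).subset fun n hn => ⟨hn.1, hn.2.1⟩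
  have hsub : {n : ℕ | 1 ≤ n ∧ n ≤ N ∧ ∃ H : ℝ, ((n : ℝ) ^ c) ^ θ ≤ H ∧ H ≤ (n : ℝ) ^ c ∧
      δ < |density ((n : ℝ) ^ c) H - 1|} ⊆ {n : ℕ | 1 ≤ n ∧ n ≤ N ∧ (n : ℝ) ^ c ∈ Bad θ (1 / ((m : ℝ) + 1))} := by
    rintro n ⟨g1, g2, g3⟩
    exact ⟨g1, g2, Bad_anti hm.le g3⟩
  exact_mod_cast Set.ncard_le_ncard hsub hfin

/-- almost every `c > 1 / μ` -/
theorem good_gen {θ μ η : ℝ} (hθ0 : 0.167 ≤ θ) (hθ1 : θ < 1) (hμ : 0 < μ) (hη : 0 < η) (hv : Vol θ μ η) (hθμ : μ < 1 - θ) :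
    ∀ᵐ c : ℝ, 1 / μ < c → Good θ (fun n => (n : ℝ) ^ c) := by
  have h1θ : 0 < 1 - θ := by linarith
  have h1 : ∀ m : ℕ, volume {c : ℝ | 1 / μ + 1 / ((m : ℝ) + 1) ≤ c ∧ ¬ Good θ (fun n => (n : ℝ) ^ c)} = 0 := by
    intro m
    have hm : 0 < 1 / ((m : ℝ) + 1) := by positivity
    have hc1 : 1 / μ < 1 / μ + 1 / ((m : ℝ) + 1) := by linarith
    have h2 := dim_pow hθ0 hθ1 hμ hη hv hθμ hc1
    have h3 : dimH {c : ℝ | 1 / μ + 1 / ((m : ℝ) + 1) ≤ c ∧ ¬ Good θ (fun n => (n : ℝ) ^ c)} < ((1 : ℝ≥0) : ℝ≥0∞) := by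
      refine h2.trans_lt ?_
      rw [ENNReal.coe_one, ENNReal.ofReal_lt_one, sub_lt_self_iff]
      apply div_pos _ h1θ
      rw [sub_pos, div_lt_comm₀ (by positivity) hμ]
      exact hc1
    have h4 := hausdorffMeasure_of_dimH_lt h3
    rwa [NNReal.coe_one, hausdorffMeasure_real] at h4
  have h2 : volume (⋃ m : ℕ, {c : ℝ | 1 / μ + 1 / ((m : ℝ) + 1) ≤ c ∧ ¬ Good θ (fun n => (n : ℝ) ^ c)}) = 0 :=
    measure_iUnion_null h1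
  rw [ae_iff]
  refine measure_mono_null ?_ h2
  intro c hc
  simp only [Set.mem_ofPred_eq, Classical.not_imp] at hc
  obtain ⟨hc1, hc2⟩ := hc
  obtain ⟨m, hm⟩ := exists_nat_one_div_lt (show 0 < c - 1 / μ by linarith)
  rw [Set.mem_iUnion]
  exact ⟨m, by linarith, hc2⟩

/-- the laws for the exponents `θ`, `μ` -/
def Law (θ μ : ℝ) : Prop :=
  DimLaw θ μ ∧
  (∀ c₁ : ℝ, 1 / μ < c₁ →
    dimH {c : ℝ | c₁ ≤ c ∧ ¬ Good θ (fun n => (n : ℝ) ^ c)} ≤ ENNReal.ofReal (1 - (μ - 1 / c₁) / (1 - θ))) ∧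
  (∀ b : ℕ → ℝ, Tendsto (fun k : ℕ => b k / Real.log k) atTop atTop →
    dimH {α : ℝ | 1 < α ∧ ¬ Good θ (fun k => α ^ b k)} ≤ ENNReal.ofReal (1 - μ / (1 - θ))) ∧
  (∀ᵐ c : ℝ, 1 / μ < c → Good θ (fun n => (n : ℝ) ^ c)) ∧
  (∀ᵐ c : ℝ, 1 ≤ c → c < 1 / μ → Few θ c (1 - μ * c)) ∧
  (∀ c : ℝ, 1 ≤ c → Few θ c (max (1 - μ * c) ((1 - θ - μ) * c)))

theorem law {θ μ η : ℝ} (hθ0 : 0.167 ≤ θ) (hθ1 : θ < 1) (hμ : 0 < μ) (hη : 0 < η) (hv : Vol θ μ η) (hθμ : μ < 1 - θ) :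
    Law θ μ :=
  ⟨fun S f a c₀ κ h1 h2 h3 h4 h5 h6 h7 => dimLaw hθ0 hθ1 hμ.le hη hv hθμ S f a h1 h2 (by linarith) h2.le h4 h5 h6 h7,
    fun _ hc => dim_pow hθ0 hθ1 hμ hη hv hθμ hc, fun b hb => dim_exp hθ0 hθ1 hμ hη hv hθμ b hb,
    good_gen hθ0 hθ1 hμ hη hv hθμ, few_gen hθ0 hθ1 hμ hη hv hθμ, fun _ hc => few_all hθ0 hθ1 hμ.le hη hv hθμ hc⟩

theorem law_of {θ μ : ℝ} (hFG : FG (1 - θ) μ) (hθ0 : 0.167 ≤ θ) (hθ1 : θ < 1) (hμ : 0 < μ) (hθμ : μ < 1 - θ) : Law θ μ := by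
  obtain ⟨η, hη, hv⟩ := vol_of hFG hθ0 hθ1.le hμ.le
  exact law hθ0 hθ1 hμ hη hv hθμ

theorem laws : Law 0.505 0.165 ∧ Law 0.499 0.16 ∧ Law 0.475 0.13125 ∧ ∃ μ : ℝ, 0 < μ ∧ Law 0.167 μ := by
  refine ⟨law_of ?_ (by norm_num) (by norm_num) (by norm_num) (by norm_num),
    law_of ?_ (by norm_num) (by norm_num) (by norm_num) (by norm_num),
    law_of ?_ (by norm_num) (by norm_num) (by norm_num) (by norm_num), ?_⟩
  · have := fg_A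
    norm_num at this ⊢
    exact this
  · have := fg_C
    norm_num at this ⊢
    exact this
  · have := fg_B
    norm_num at this ⊢
    exact this
  · obtain ⟨η, hη, hv⟩ := vol_of (θ := 0.167) (μ := 0) (by
      have := fg_wide
      norm_num at this ⊢
      exact this) (by norm_num) (by norm_num) le_rfl
    obtain ⟨μ, hμ⟩ : ∃ μ, μ = min (η / 2) (1 / 2) := ⟨_, rfl⟩
    have hμ0 : 0 < μ := by rw [hμ]; positivity
    have hμ1 : μ ≤ η / 2 := by rw [hμ]; exact min_le_left _ _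
    have hμ2 : μ ≤ 1 / 2 := by rw [hμ]; exact min_le_right _ _
    refine ⟨μ, hμ0, law (η := η / 2) (by norm_num) (by norm_num) hμ0 (by positivity) ?_ (by linarith)⟩
    intro ε a b h1 h2 h3 h4
    filter_upwards [hv ε a b h1 h2 h3 h4, eventually_ge_atTop 1] with x h5 h6 H h7 h8
    refine (h5 H h7 h8).trans (ENNReal.ofReal_le_ofReal ?_)
    exact Real.rpow_le_rpow_of_exponent_le h6 (by linarith)

end Pool.Agent.H83SI
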