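import Pool.Agent.H83SI.Dim

/-!
# Separated sets and the powers `n ^ c`
-/

set_option autoImplicit false

namespace Pool.Agent.H83SI

open Finset Filter Topology MeasureTheory
open scoped NNReal ENNReal

theorem ev_rp (C : ℝ) {κ : ℝ} (hκ : 0 < κ) : ∀ᶠ x : ℝ in atTop, C ≤ x ^ κ :=
  (tendsto_rpow_atTop hκ).eventually_ge_atTop C

theorem sep_card {u L g : ℝ} (hL : 0 ≤ L) (hg : 0 < g) (S : Finset ℝ) (h1 : ∀ x ∈ S, u ≤ x ∧ x ≤ u + L)
    (h2 : ∀ x ∈ S, ∀ y ∈ S, x < y → g ≤ y - x) : (S.card : ℝ) ≤ 1 + L / g := by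
  classical
  have hinj : Set.InjOn (fun x : ℝ => ⌊(x - u) / g⌋₊) (S : Set ℝ) := by
    have key : ∀ x ∈ S, ∀ y ∈ S, x < y → ⌊(x - u) / g⌋₊ ≠ ⌊(y - u) / g⌋₊ := by
      intro x hx y hy hxy h
      have h3 := h2 x hx y hy hxy
      have h4 : 0 ≤ (x - u) / g := div_nonneg (by linarith [(h1 x hx).1]) hg.le
      have h5 := Nat.floor_le h4
      have h6 := Nat.lt_floor_add_one ((y - u) / g)
      rw [← h] at h6
      have h7 : (y - u) / g - (x - u) / g < 1 := by linarith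
      rw [← sub_div, div_lt_one hg] at h7
      linarith
    intro x hx y hy h
    rcases lt_trichotomy x y with h3 | h3 | h3
    · exact absurd h (key x hx y hy h3)
    · exact h3
    · exact absurd h.symm (key y hy x hx h3)
  have hmaps : Set.MapsTo (fun x : ℝ => ⌊(x - u) / g⌋₊) (S : Set ℝ) (range (⌊L / g⌋₊ + 1) : Finset ℕ) := by
    intro x hx
    rw [mem_coe, mem_range, Nat.lt_succ_iff]
    apply Nat.floor_le_floor
    apply div_le_div_of_nonneg_right _ hg.le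
    linarith [(h1 x hx).2]
  have h3 := card_le_card_of_injOn _ hmaps hinj
  rw [card_range] at h3
  have h4 : (S.card : ℝ) ≤ (⌊L / g⌋₊ : ℝ) + 1 := by exact_mod_cast h3
  linarith [Nat.floor_le (div_nonneg hL hg.le)]

/-- separated sets have few points in `A` -/
theorem sep_count {A : Set ℝ} {θ ρ : ℝ} (hA : Cov A θ ρ) : ∀ᶠ X : ℝ in atTop, ∀ g : ℝ, 0 < g → ∀ S : Finset ℝ,
    (∀ x ∈ S, X ≤ x ∧ x ≤ 2 * X ∧ x ∈ A) → (∀ x ∈ S, ∀ y ∈ S, x < y → g ≤ y - x) →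
    (S.card : ℝ) ≤ X ^ ρ * (1 + X ^ θ / g) := by
  classical
  filter_upwards [hA, eventually_gt_atTop 0] with X hX hX0
  obtain ⟨U, hU, hU2⟩ := hX
  intro g hg S h1 h2
  have hsub : S ⊆ U.biUnion fun u => S.filter fun x => u ≤ x ∧ x ≤ u + X ^ θ := by
    intro x hx
    obtain ⟨g1, g2, g3⟩ := h1 x hx
    obtain ⟨u, hu, hu1, hu2⟩ := hU2 x g1 g2 g3
    rw [mem_biUnion]
    exact ⟨u, hu, mem_filter.2 ⟨hx, hu1, hu2⟩⟩
  have h3 : (S.card : ℝ) ≤ ∑ u ∈ U, ((S.filter fun x => u ≤ x ∧ x ≤ u + X ^ θ).card : ℝ) := by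
    have := (card_le_card hsub).trans card_biUnion_le
    exact_mod_cast this
  refine h3.trans ?_
  have h4 : ∑ u ∈ U, ((S.filter fun x => u ≤ x ∧ x ≤ u + X ^ θ).card : ℝ) ≤ ∑ u ∈ U, (1 + X ^ θ / g) := by
    apply sum_le_sum
    intro u _
    apply sep_card (Real.rpow_nonneg hX0.le _) hg
    · intro x hx
      exact (mem_filter.1 hx).2
    · intro x hx y hy
      exact h2 x (mem_filter.1 hx).1 y (mem_filter.1 hy).1
  refine h4.trans ?_
  rw [sum_const, nsmul_eq_mul]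
  have : 0 ≤ 1 + X ^ θ / g := by positivity
  gcongr

theorem pow_gap {c : ℝ} (hc : 1 ≤ c) {m n : ℕ} (hm : 1 ≤ m) (hmn : m < n) :
    (m : ℝ) ^ (c - 1) ≤ (n : ℝ) ^ c - (m : ℝ) ^ c := by
  have hm0 : (0 : ℝ) < m := by exact_mod_cast hm
  have h1 : (m : ℝ) + 1 ≤ n := by exact_mod_cast hmn
  have h2 : ((m : ℝ) + 1) ^ c ≤ (n : ℝ) ^ c := Real.rpow_le_rpow (by positivity) h1 (by linarith)
  have h3 : 1 + c * (1 / (m : ℝ)) ≤ (1 + 1 / (m : ℝ)) ^ c :=
    one_add_mul_self_le_rpow_one_add (by have : 0 < 1 / (m : ℝ) := by positivity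
                                         linarith) hc
  have h4 : ((m : ℝ) + 1) ^ c = (m : ℝ) ^ c * (1 + 1 / (m : ℝ)) ^ c := by
    rw [← Real.mul_rpow hm0.le (by positivity)]
    congr 1
    field_simp
  have h5 : (m : ℝ) ^ (c - 1) = (m : ℝ) ^ c * (1 / (m : ℝ)) := by
    rw [Real.rpow_sub_one hm0.ne']
    ring
  have h6 : 0 < (m : ℝ) ^ c := Real.rpow_pos_of_pos hm0 c
  have h7 : (m : ℝ) ^ c * (1 + c * (1 / (m : ℝ))) ≤ ((m : ℝ) + 1) ^ c := by
    rw [h4]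
    gcongr
  have h8 : 1 / (m : ℝ) ≤ c * (1 / (m : ℝ)) := le_mul_of_one_le_left (by positivity) hc
  rw [h5]
  nlinarith

/-- the powers `n ^ c` in a dyadic interval -/
theorem pow_block {A : Set ℝ} {θ ρ : ℝ} (hA : Cov A θ ρ) {c : ℝ} (hc : 1 ≤ c) : ∀ᶠ X : ℝ in atTop,
    ∀ S : Finset ℕ, (∀ n ∈ S, X ≤ (n : ℝ) ^ c ∧ (n : ℝ) ^ c ≤ 2 * X ∧ (n : ℝ) ^ c ∈ A) →
    (S.card : ℝ) ≤ X ^ ρ + X ^ (ρ + θ - 1 + 1 / c) := by
  classical
  filter_upwards [sep_count hA, eventually_ge_atTop 1] with X h1 hX1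
  intro S hS
  have hX : 0 < X := by linarith
  have hc0 : 0 < c := by linarith
  have hn1 : ∀ n ∈ S, 1 ≤ n := by
    intro n hn
    by_contra hcon
    have : n = 0 := by omega
    have h2 := (hS n hn).1
    rw [this, Nat.cast_zero, Real.zero_rpow hc0.ne'] at h2
    linarith
  have hg0 : 0 < X ^ (1 - 1 / c) := Real.rpow_pos_of_pos hX _
  have hgap : ∀ m ∈ S, ∀ n ∈ S, m < n → X ^ (1 - 1 / c) ≤ (n : ℝ) ^ c - (m : ℝ) ^ c := by
    intro m hm n hn hmn
    refine le_trans ?_ (pow_gap hc (hn1 m hm) hmn)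
    have h2 := (hS m hm).1
    have hm0 : (0 : ℝ) < m := by exact_mod_cast hn1 m hm
    have e : (m : ℝ) ^ (c - 1) = ((m : ℝ) ^ c) ^ (1 - 1 / c) := by
      rw [← Real.rpow_mul hm0.le]
      congr 1
      field_simp
    rw [e]
    apply Real.rpow_le_rpow hX.le h2
    rw [sub_nonneg, div_le_one hc0]
    exact hc
  have h2 := h1 (X ^ (1 - 1 / c)) hg0 (S.image fun n : ℕ => (n : ℝ) ^ c) (by
    intro x hx
    rw [mem_image] at hx
    obtain ⟨n, hn, rfl⟩ := hx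
    exact hS n hn) (by
    intro x hx y hy hxy
    rw [mem_image] at hx hy
    obtain ⟨m, hm, rfl⟩ := hx
    obtain ⟨n, hn, rfl⟩ := hy
    apply hgap m hm n hn
    by_contra hcon
    push Not at hcon
    have : (n : ℝ) ^ c ≤ (m : ℝ) ^ c := Real.rpow_le_rpow (Nat.cast_nonneg n) (by exact_mod_cast hcon) hc0.le
    linarith)
  have h3 : (S.image fun n : ℕ => (n : ℝ) ^ c).card = S.card := by
    apply card_image_of_injOn
    intro m _ n _ h
    simp only at h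
    have := (Real.rpow_left_inj (Nat.cast_nonneg m) (Nat.cast_nonneg n) hc0.ne').1 h
    exact_mod_cast this
  rw [h3] at h2
  refine h2.trans (le_of_eq ?_)
  rw [mul_add, mul_one, ← Real.rpow_sub hX, ← Real.rpow_add hX]
  congr 2
  ring

theorem log_ev (B E : ℝ) {κ : ℝ} (hκ : 0 < κ) : ∀ᶠ N : ℕ in atTop, B * Real.log N + E ≤ (N : ℝ) ^ κ := by
  have h1 : ∀ᶠ x : ℝ in atTop, |B| * Real.log x ≤ x ^ κ / 2 := by
    have h2 := (isLittleO_log_rpow_atTop hκ).bound (show 0 < 1 / (2 * (|B| + 1)) by positivity)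
    filter_upwards [h2, eventually_ge_atTop 1] with x hx hx1
    rw [Real.norm_of_nonneg (Real.log_nonneg hx1), Real.norm_of_nonneg (Real.rpow_nonneg (by linarith) _)] at hx
    calc |B| * Real.log x ≤ |B| * (1 / (2 * (|B| + 1)) * x ^ κ) := by gcongr
      _ = |B| / (|B| + 1) * (x ^ κ / 2) := by field_simp
      _ ≤ 1 * (x ^ κ / 2) := by
          have : 0 ≤ x ^ κ := Real.rpow_nonneg (by linarith) _
          gcongr
          rw [div_le_one (by positivity)]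
          linarith [abs_nonneg B]
      _ = x ^ κ / 2 := one_mul _
  have h3 := tendsto_natCast_atTop_atTop (R := ℝ) |>.eventually h1
  have h4 := tendsto_natCast_atTop_atTop (R := ℝ) |>.eventually (ev_rp (2 * E) hκ)
  filter_upwards [h3, h4, eventually_ge_atTop 1] with N h5 h6 h7
  have h8 : 0 ≤ Real.log (N : ℝ) := Real.log_nonneg (by exact_mod_cast h7)
  have h9 : B * Real.log N ≤ |B| * Real.log N := by gcongr; exact le_abs_self B
  linarith

/-- for every `c ≥ 1` the number of the `n ≤ N` with `n ^ c ∈ A` -/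
theorem count_pow {A : Set ℝ} {θ ρ : ℝ} (hA : Cov A θ ρ) {c E : ℝ} (hc : 1 ≤ c) (hE : 0 < E) (hE1 : ρ * c < E)
    (hE2 : (ρ + θ - 1) * c + 1 < E) :
    ∀ᶠ N : ℕ in atTop, ({n : ℕ | 1 ≤ n ∧ n ≤ N ∧ (n : ℝ) ^ c ∈ A}.ncard : ℝ) ≤ (N : ℝ) ^ E := by
  classical
  have hc0 : 0 < c := by linarith
  obtain ⟨E', hE'1, hE'2⟩ : ∃ E', max (max (ρ * c) ((ρ + θ - 1) * c + 1)) 0 < E' ∧ E' < E :=
    exists_between (max_lt (max_lt hE1 hE2) hE)
  have hE'0 : 0 < E' := (le_max_right _ _).trans_lt hE'1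
  have hρE : ρ * c ≤ E' := ((le_max_left _ _).trans (le_max_left _ _)).trans hE'1.le
  have hρE2 : (ρ + θ - 1) * c + 1 ≤ E' := ((le_max_right _ _).trans (le_max_left _ _)).trans hE'1.le
  obtain ⟨X₀, hX₀⟩ := eventually_atTop.1 (pow_block hA hc)
  obtain ⟨j₀, hj₀⟩ := pow_unbounded_of_one_lt X₀ (show (1 : ℝ) < 2 by norm_num)
  obtain ⟨M, hM⟩ := exists_nat_ge ((2 : ℝ) ^ (j₀ : ℕ))
  filter_upwards [log_ev (2 * c / Real.log 2) (M + 3) (show 0 < E - E' by linarith), eventually_ge_atTop 1] with N hN hN1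
  have hNr : (1 : ℝ) ≤ N := by exact_mod_cast hN1
  have hN0 : (0 : ℝ) < N := by linarith
  have hl2 : 0 < Real.log 2 := Real.log_pos (by norm_num)
  obtain ⟨J, hJ⟩ : ∃ J, J = ⌊c * Real.log N / Real.log 2⌋₊ := ⟨_, rfl⟩
  obtain ⟨T, hT⟩ : ∃ T : Finset ℕ, T = (Icc 1 N).filter (fun n : ℕ => (n : ℝ) ^ c ∈ A) := ⟨_, rfl⟩
  have hTs : {n : ℕ | 1 ≤ n ∧ n ≤ N ∧ (n : ℝ) ^ c ∈ A} = (T : Set ℕ) := by
    ext n
    rw [hT]
    simp only [Set.mem_ofPred_eq, coe_filter, mem_Icc, and_assoc]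
  rw [hTs, Set.ncard_coe_finset]
  obtain ⟨B, hB⟩ : ∃ B : ℕ → Finset ℕ, B = fun j => T.filter (fun n : ℕ => j₀ ≤ j ∧ (2 : ℝ) ^ j ≤ (n : ℝ) ^ c ∧
    (n : ℝ) ^ c ≤ 2 * 2 ^ j) := ⟨_, rfl⟩
  have hsub : T ⊆ range (M + 1) ∪ (range (J + 1)).biUnion B := by
    intro n hn
    have hn' := hn
    rw [hT, mem_filter, mem_Icc] at hn'
    obtain ⟨⟨hn1, hn2⟩, hnA⟩ := hn'
    have hnr : (1 : ℝ) ≤ n := by exact_mod_cast hn1
    rw [mem_union]
    rcases lt_or_ge ((n : ℝ) ^ c) ((2 : ℝ) ^ j₀) with h | h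
    · left
      rw [mem_range]
      have h1 : (n : ℝ) ≤ (n : ℝ) ^ c := by
        calc (n : ℝ) = (n : ℝ) ^ (1 : ℝ) := (Real.rpow_one _).symm
          _ ≤ (n : ℝ) ^ c := Real.rpow_le_rpow_of_exponent_le hnr hc
      have h2 : (n : ℝ) < (M : ℝ) + 1 := by linarith
      exact_mod_cast h2
    · right
      have h1 : 1 ≤ (n : ℝ) ^ c := Real.one_le_rpow hnr hc0.le
      obtain ⟨j, hj1, hj2⟩ := exists_nat_pow_near h1 (show (1 : ℝ) < 2 by norm_num)
      have hjj : j₀ ≤ j := by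
        by_contra hcon
        push Not at hcon
        have : (2 : ℝ) ^ (j + 1) ≤ 2 ^ j₀ := pow_le_pow_right₀ (by norm_num) hcon
        linarith
      rw [mem_biUnion]
      refine ⟨j, ?_, ?_⟩
      · rw [mem_range, Nat.lt_succ_iff, hJ]
        apply Nat.le_floor
        rw [le_div_iff₀ hl2, ← Real.log_pow]
        have h2 : (2 : ℝ) ^ j ≤ (N : ℝ) ^ c := hj1.trans (Real.rpow_le_rpow (by positivity) (by exact_mod_cast hn2) hc0.le)
        have h3 := Real.log_le_log (by positivity) h2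
        rwa [Real.log_rpow hN0] at h3
      · rw [hB]
        simp only
        rw [mem_filter]
        refine ⟨hn, hjj, hj1, ?_⟩
        rw [pow_succ] at hj2
        linarith
  have hBc : ∀ j ∈ range (J + 1), ((B j).card : ℝ) ≤ 2 * (N : ℝ) ^ E' := by
    intro j _
    by_cases hne : (B j).Nonempty
    swap
    · rw [not_nonempty_iff_eq_empty] at hne
      rw [hne, card_empty, Nat.cast_zero]
      positivity
    obtain ⟨n, hn⟩ := hne
    have hn' := hn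
    rw [hB] at hn'
    simp only at hn'
    rw [mem_filter] at hn'
    obtain ⟨hnT, hjj, hn1, hn2⟩ := hn'
    rw [hT, mem_filter, mem_Icc] at hnT
    have hX1 : (1 : ℝ) ≤ 2 ^ j := one_le_pow₀ (by norm_num)
    have hX0 : (0 : ℝ) < 2 ^ j := by positivity
    have h1 := hX₀ (2 ^ j) (hj₀.le.trans (pow_le_pow_right₀ (by norm_num) hjj)) (B j) (by
      intro m hm
      rw [hB] at hm
      simp only at hm
      rw [mem_filter, hT, mem_filter] at hm
      exact ⟨hm.2.2.1, hm.2.2.2, hm.1.2⟩)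
    refine h1.trans ?_
    have hXN : (2 : ℝ) ^ j ≤ (N : ℝ) ^ c := hn1.trans (Real.rpow_le_rpow (by positivity) (by exact_mod_cast hnT.1.2) hc0.le)
    have key : ∀ e : ℝ, e * c ≤ E' → ((2 : ℝ) ^ j) ^ e ≤ (N : ℝ) ^ E' := by
      intro e he
      calc ((2 : ℝ) ^ j) ^ e ≤ ((2 : ℝ) ^ j) ^ (E' / c) := by
            apply Real.rpow_le_rpow_of_exponent_le hX1
            rwa [le_div_iff₀ hc0]
        _ ≤ ((N : ℝ) ^ c) ^ (E' / c) := Real.rpow_le_rpow hX0.le hXN (by positivity)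
        _ = (N : ℝ) ^ E' := by
            rw [← Real.rpow_mul hN0.le]
            congr 1
            field_simp
    have k1 := key ρ hρE
    have k2 := key (ρ + θ - 1 + 1 / c) (by
      have : (ρ + θ - 1 + 1 / c) * c = (ρ + θ - 1) * c + 1 := by field_simp
      rw [this]
      exact hρE2)
    linarith
  have h1 : (T.card : ℝ) ≤ (M + 1) + (J + 1) * (2 * (N : ℝ) ^ E') := by
    have g1 : (T.card : ℝ) ≤ ((range (M + 1)).card : ℝ) + (((range (J + 1)).biUnion B).card : ℝ) := by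
      exact_mod_cast (card_le_card hsub).trans (card_union_le _ _)
    have g2 : (((range (J + 1)).biUnion B).card : ℝ) ≤ ∑ j ∈ range (J + 1), ((B j).card : ℝ) := by
      exact_mod_cast card_biUnion_le
    have g3 := sum_le_sum hBc
    rw [sum_const, card_range, nsmul_eq_mul] at g3
    rw [card_range] at g1
    push_cast at g1 g3
    linarith
  refine h1.trans ?_
  have hJle : (J : ℝ) ≤ c * Real.log N / Real.log 2 := by
    rw [hJ]
    exact Nat.floor_le (div_nonneg (mul_nonneg hc0.le (Real.log_nonneg hNr)) hl2.le)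
  have hNE : 1 ≤ (N : ℝ) ^ E' := Real.one_le_rpow hNr hE'0.le
  have hM0 : (0 : ℝ) ≤ M := Nat.cast_nonneg M
  calc (M + 1 : ℝ) + (J + 1) * (2 * (N : ℝ) ^ E') ≤ (M + 1) * (N : ℝ) ^ E' + (c * Real.log N / Real.log 2 + 1) * (2 * (N : ℝ) ^ E') := by
        have g4 : (J + 1 : ℝ) * (2 * (N : ℝ) ^ E') ≤ (c * Real.log N / Real.log 2 + 1) * (2 * (N : ℝ) ^ E') := by gcongr
        nlinarith
    _ = (2 * c / Real.log 2 * Real.log N + (M + 3)) * (N : ℝ) ^ E' := by ring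
    _ ≤ (N : ℝ) ^ (E - E') * (N : ℝ) ^ E' := by gcongr
    _ = (N : ℝ) ^ E := by
        rw [← Real.rpow_add hN0]
        congr 1
        ring

end Pool.Agent.H83SI
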